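import Mathlib
import Pool.Agent.Helper12.FA.CONVEX
import Pool.Agent.Helper9.Asym

/-! # TETC: concavity of the volume -/

namespace Pool.Agent.Helper9.FA

open Filter Topology
open Pool.Agent.Helper9.Kashaev

theorem h74_loba_cont : Continuous lobachevsky := by
  have : lobachevsky = fun x => - HH x := by
    funext x; exact HH_loba x
  rw [this]
  exact HH_cont.neg

theorem h74_loba_deriv {x : ℝ} (h : 0 < Real.sin x) :
    HasDerivAt lobachevsky (-Real.log (2 * Real.sin x)) x := by
  have hc : ContinuousAt (fun t => Real.log |2 * Real.sin t|) x := by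
    apply ContinuousAt.log
    · fun_prop
    · have : 0 < 2 * Real.sin x := by linarith
      exact (abs_pos.mpr this.ne').ne'
  have hm : Measurable (fun t : ℝ => Real.log |2 * Real.sin t|) := by fun_prop
  have h1 := intervalIntegral.integral_hasDerivAt_right (integrable_h 0 x)
    hm.stronglyMeasurable.stronglyMeasurableAtFilter hc
  have h2 := h1.neg
  rw [Real.log_abs] at h2
  exact h2

theorem h74_log_deriv {x : ℝ} (h : 0 < Real.sin x) :
    HasDerivAt (fun x => Real.log (2 * Real.sin x)) (Real.cos x / Real.sin x) x := by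
  have h1 : HasDerivAt (fun x => 2 * Real.sin x) (2 * Real.cos x) x :=
    (Real.hasDerivAt_sin x).const_mul 2
  have h2 := h1.log (by linarith : 2 * Real.sin x ≠ 0)
  convert h2 using 1
  field_simp

/-- the quadratic form of the second derivative -/
theorem h74_quad {a b c : ℝ} (hsum : a + b + c = Real.pi) (ha : 0 < Real.sin a)
    (hb : 0 < Real.sin b) (hc : 0 < Real.sin c) (α β : ℝ) :
    0 ≤ α ^ 2 * (Real.cos a / Real.sin a) + β ^ 2 * (Real.cos b / Real.sin b) +
      (α + β) ^ 2 * (Real.cos c / Real.sin c) := by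
  have hc' : c = Real.pi - (a + b) := by linarith
  have h1 : Real.sin c = Real.sin a * Real.cos b + Real.cos a * Real.sin b := by
    rw [hc', Real.sin_pi_sub, Real.sin_add]
  have h2 : Real.cos c = Real.sin a * Real.sin b - Real.cos a * Real.cos b := by
    rw [hc', Real.cos_pi_sub, Real.cos_add]; ring
  have ea := Real.sin_sq_add_cos_sq a
  have eb := Real.sin_sq_add_cos_sq b
  have ec := Real.sin_sq_add_cos_sq c
  have key : α ^ 2 * (Real.cos a / Real.sin a) + β ^ 2 * (Real.cos b / Real.sin b) +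
      (α + β) ^ 2 * (Real.cos c / Real.sin c) =
      ((α * Real.sin b + β * Real.sin a * Real.cos c) ^ 2 + (β * Real.sin a * Real.sin c) ^ 2) /
        (Real.sin a * Real.sin b * Real.sin c) := by
    rw [eq_div_iff (by positivity)]
    have e1 : α ^ 2 * (Real.cos a / Real.sin a) * (Real.sin a * Real.sin b * Real.sin c) =
        α ^ 2 * Real.cos a * Real.sin b * Real.sin c := by
      field_simp
    have e2 : β ^ 2 * (Real.cos b / Real.sin b) * (Real.sin a * Real.sin b * Real.sin c) =
        β ^ 2 * Real.cos b * Real.sin a * Real.sin c := by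
      field_simp
    have e3 : (α + β) ^ 2 * (Real.cos c / Real.sin c) * (Real.sin a * Real.sin b * Real.sin c) =
        (α + β) ^ 2 * Real.cos c * Real.sin a * Real.sin b := by
      field_simp
    rw [add_mul, add_mul, e1, e2, e3]
    have f1 : Real.cos a * Real.sin c + Real.sin a * Real.cos c = Real.sin b := by
      rw [h1, h2]
      linear_combination Real.sin b * ea
    have f2 : Real.cos b * Real.sin c + Real.sin b * Real.cos c = Real.sin a := by
      rw [h1, h2]
      linear_combination Real.sin a * eb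
    linear_combination (α ^ 2 * Real.sin b) * f1 + (β ^ 2 * Real.sin a) * f2 -
      (β ^ 2 * Real.sin a ^ 2) * ec
  rw [key]
  positivity

/-- concavity between interior points -/
theorem h74_tet_int {a b a' b' : ℝ} (ha : 0 < a) (hb : 0 < b) (hab : a + b < Real.pi)
    (ha' : 0 < a') (hb' : 0 < b') (hab' : a' + b' < Real.pi) {t : ℝ} (h0 : 0 ≤ t) (h1 : t ≤ 1) :
    (1 - t) * tet a b + t * tet a' b' ≤ tet ((1 - t) * a + t * a') ((1 - t) * b + t * b') := by
  have hpos : ∀ x ∈ Set.Ioo (0 : ℝ) 1, 0 < Real.sin ((1 - x) * a + x * a') ∧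
      0 < Real.sin ((1 - x) * b + x * b') ∧
      0 < Real.sin (Real.pi - ((1 - x) * a + x * a') - ((1 - x) * b + x * b')) := by
    intro x hx
    obtain ⟨hx0, hx1⟩ := hx
    have hx1' : 0 < 1 - x := by linarith
    have p1 : 0 < (1 - x) * a + x * a' := by positivity
    have p2 : 0 < (1 - x) * b + x * b' := by positivity
    have p3 : ((1 - x) * a + x * a') + ((1 - x) * b + x * b') < Real.pi := by
      nlinarith
    refine ⟨Real.sin_pos_of_pos_of_lt_pi p1 (by linarith),
      Real.sin_pos_of_pos_of_lt_pi p2 (by linarith),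
      Real.sin_pos_of_pos_of_lt_pi (by linarith) (by linarith)⟩
  have hA : ∀ x : ℝ, HasDerivAt (fun x => (1 - x) * a + x * a') (a' - a) x := by
    intro x
    have := (((hasDerivAt_id' x).const_sub 1).mul_const a).fun_add
      ((hasDerivAt_id' x).mul_const a')
    exact this.congr_deriv (by ring)
  have hB : ∀ x : ℝ, HasDerivAt (fun x => (1 - x) * b + x * b') (b' - b) x := by
    intro x
    have := (((hasDerivAt_id' x).const_sub 1).mul_const b).fun_add
      ((hasDerivAt_id' x).mul_const b')
    exact this.congr_deriv (by ring)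
  have hC : ∀ x : ℝ, HasDerivAt
      (fun x => Real.pi - ((1 - x) * a + x * a') - ((1 - x) * b + x * b'))
      (-(a' - a) - (b' - b)) x := by
    intro x
    exact ((hA x).const_sub Real.pi).sub (hB x)
  have hconc : ConcaveOn ℝ (Set.Icc (0 : ℝ) 1)
      (fun x => tet ((1 - x) * a + x * a') ((1 - x) * b + x * b')) := by
    apply concaveOn_of_hasDerivWithinAt2_nonpos (convex_Icc 0 1)
      (f' := fun x => -Real.log (2 * Real.sin ((1 - x) * a + x * a')) * (a' - a) +
        -Real.log (2 * Real.sin ((1 - x) * b + x * b')) * (b' - b) +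
        -Real.log (2 * Real.sin (Real.pi - ((1 - x) * a + x * a') - ((1 - x) * b + x * b'))) *
          (-(a' - a) - (b' - b)))
      (f'' := fun x => -(Real.cos ((1 - x) * a + x * a') / Real.sin ((1 - x) * a + x * a') *
          (a' - a)) * (a' - a) +
        -(Real.cos ((1 - x) * b + x * b') / Real.sin ((1 - x) * b + x * b') *
          (b' - b)) * (b' - b) +
        -(Real.cos (Real.pi - ((1 - x) * a + x * a') - ((1 - x) * b + x * b')) /
          Real.sin (Real.pi - ((1 - x) * a + x * a') - ((1 - x) * b + x * b')) *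
          (-(a' - a) - (b' - b))) * (-(a' - a) - (b' - b)))
    · apply Continuous.continuousOn
      unfold tet
      have := h74_loba_cont
      fun_prop
    · intro x hx
      rw [interior_Icc] at hx
      obtain ⟨s1, s2, s3⟩ := hpos x hx
      apply HasDerivAt.hasDerivWithinAt
      exact (((h74_loba_deriv s1).comp x (hA x)).add ((h74_loba_deriv s2).comp x (hB x))).add
        ((h74_loba_deriv s3).comp x (hC x))
    · intro x hx
      rw [interior_Icc] at hx
      obtain ⟨s1, s2, s3⟩ := hpos x hx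
      apply HasDerivAt.hasDerivWithinAt
      exact (((((h74_log_deriv s1).comp x (hA x)).neg).mul_const (a' - a)).add
        ((((h74_log_deriv s2).comp x (hB x)).neg).mul_const (b' - b))).add
        ((((h74_log_deriv s3).comp x (hC x)).neg).mul_const (-(a' - a) - (b' - b)))
    · intro x hx
      rw [interior_Icc] at hx
      obtain ⟨s1, s2, s3⟩ := hpos x hx
      have := h74_quad (by ring) s1 s2 s3 (a' - a) (b' - b)
      nlinarith [this]
  have h := hconc.2 (Set.left_mem_Icc.mpr zero_le_one) (Set.right_mem_Icc.mpr zero_le_one)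
    (sub_nonneg.mpr h1) h0 (by ring)
  simp only [smul_eq_mul] at h
  have e : (1 - t) * 0 + t * 1 = t := by ring
  rw [e] at h
  simpa using h

theorem h74_tet_cont : Continuous (fun x : ℝ × ℝ => tet x.1 x.2) := by
  unfold tet
  have := h74_loba_cont
  fun_prop

/-- concavity of the volume of a tetrahedron -/
theorem h74_tet_concave {a b a' b' : ℝ} (ha : 0 ≤ a) (hb : 0 ≤ b) (hab : a + b ≤ Real.pi)
    (ha' : 0 ≤ a') (hb' : 0 ≤ b') (hab' : a' + b' ≤ Real.pi) {t : ℝ} (h0 : 0 ≤ t) (h1 : t ≤ 1) :
    (1 - t) * tet a b + t * tet a' b' ≤ tet ((1 - t) * a + t * a') ((1 - t) * b + t * b') := by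
  have hpi := Real.pi_pos
  have hcont : ∀ (f g : ℝ → ℝ), Continuous f → Continuous g →
      Continuous (fun e => tet (f e) (g e)) := by
    intro f g hf hg
    exact h74_tet_cont.comp (hf.prodMk hg)
  have key : ∀ e ∈ Set.Ioo (0 : ℝ) 1,
      (1 - t) * tet ((1 - e) * a + e * (Real.pi / 3)) ((1 - e) * b + e * (Real.pi / 3)) +
        t * tet ((1 - e) * a' + e * (Real.pi / 3)) ((1 - e) * b' + e * (Real.pi / 3)) ≤
      tet ((1 - t) * ((1 - e) * a + e * (Real.pi / 3)) + t * ((1 - e) * a' + e * (Real.pi / 3)))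
        ((1 - t) * ((1 - e) * b + e * (Real.pi / 3)) + t * ((1 - e) * b' + e * (Real.pi / 3))) := by
    rintro e ⟨he0, he1⟩
    have he : 0 < 1 - e := by linarith
    apply h74_tet_int _ _ _ _ _ _ h0 h1
    · positivity
    · positivity
    · nlinarith
    · positivity
    · positivity
    · nlinarith
  have hl : Tendsto (fun e : ℝ =>
      (1 - t) * tet ((1 - e) * a + e * (Real.pi / 3)) ((1 - e) * b + e * (Real.pi / 3)) +
        t * tet ((1 - e) * a' + e * (Real.pi / 3)) ((1 - e) * b' + e * (Real.pi / 3)))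
      (𝓝[>] 0) (𝓝 ((1 - t) * tet a b + t * tet a' b')) := by
    apply tendsto_nhdsWithin_of_tendsto_nhds
    have c1 := hcont (fun e => (1 - e) * a + e * (Real.pi / 3))
      (fun e => (1 - e) * b + e * (Real.pi / 3)) (by fun_prop) (by fun_prop)
    have c2 := hcont (fun e => (1 - e) * a' + e * (Real.pi / 3))
      (fun e => (1 - e) * b' + e * (Real.pi / 3)) (by fun_prop) (by fun_prop)
    exact Continuous.tendsto' ((c1.const_mul (1 - t)).add (c2.const_mul t)) 0 _ (by simp)
  have hr : Tendsto (fun e : ℝ =>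
      tet ((1 - t) * ((1 - e) * a + e * (Real.pi / 3)) + t * ((1 - e) * a' + e * (Real.pi / 3)))
        ((1 - t) * ((1 - e) * b + e * (Real.pi / 3)) + t * ((1 - e) * b' + e * (Real.pi / 3))))
      (𝓝[>] 0) (𝓝 (tet ((1 - t) * a + t * a') ((1 - t) * b + t * b'))) := by
    apply tendsto_nhdsWithin_of_tendsto_nhds
    have c1 := hcont (fun e => (1 - t) * ((1 - e) * a + e * (Real.pi / 3)) +
        t * ((1 - e) * a' + e * (Real.pi / 3)))
      (fun e => (1 - t) * ((1 - e) * b + e * (Real.pi / 3)) +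
        t * ((1 - e) * b' + e * (Real.pi / 3))) (by fun_prop) (by fun_prop)
    have := c1.tendsto 0
    simpa using this
  apply le_of_tendsto_of_tendsto hl hr
  filter_upwards [Ioo_mem_nhdsGT (zero_lt_one' ℝ)] with e he using key e he

/-- the strict concavity of the part of the volume in `n` -/
theorem h74_n_concave {x y : ℝ} (hx : 0 ≤ x) (hx' : 2 * x ≤ Real.pi) (hy : 0 ≤ y)
    (hy' : 2 * y ≤ Real.pi) :
    (tet x (Real.pi / 2 - x) + tet y (Real.pi / 2 - y)) / 2 + (x - y) ^ 2 / 4 ≤
      tet ((x + y) / 2) (Real.pi / 2 - (x + y) / 2) := by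
  have hconc : ConcaveOn ℝ (Set.Icc (0 : ℝ) (Real.pi / 2))
      (fun x => tet x (Real.pi / 2 - x) + x ^ 2) := by
    apply concaveOn_of_hasDerivWithinAt2_nonpos (convex_Icc 0 _)
      (f' := fun x => (-Real.log (2 * Real.sin x) +
        -Real.log (2 * Real.sin (Real.pi / 2 - x)) * (-1)) + 2 * x)
      (f'' := fun x => (-(Real.cos x / Real.sin x) +
        -(Real.cos (Real.pi / 2 - x) / Real.sin (Real.pi / 2 - x) * (-1)) * (-1)) + 2 * 1)
    · apply Continuous.continuousOn
      unfold tet
      have := h74_loba_cont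
      fun_prop
    · intro x hx
      rw [interior_Icc] at hx
      obtain ⟨s1, s2⟩ := hx
      have p1 : 0 < Real.sin x := Real.sin_pos_of_pos_of_lt_pi s1 (by linarith)
      have p2 : 0 < Real.sin (Real.pi / 2 - x) :=
        Real.sin_pos_of_pos_of_lt_pi (by linarith) (by linarith)
      apply HasDerivAt.hasDerivWithinAt
      have hB : HasDerivAt (fun x => Real.pi / 2 - x) (-1) x := (hasDerivAt_id x).const_sub _
      have h1 := (h74_loba_deriv p1).add ((h74_loba_deriv p2).comp x hB)
      have h2 := (h1.add_const (lobachevsky (Real.pi / 2))).fun_add (hasDerivAt_pow 2 x)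
      have e : (fun x => tet x (Real.pi / 2 - x) + x ^ 2) =
          fun x => (lobachevsky x + lobachevsky (Real.pi / 2 - x) +
            lobachevsky (Real.pi / 2)) + x ^ 2 := by
        funext x
        unfold tet
        congr 3
        ring
      rw [e]
      exact h2.congr_deriv (by simp)
    · intro x hx
      rw [interior_Icc] at hx
      obtain ⟨s1, s2⟩ := hx
      have p1 : 0 < Real.sin x := Real.sin_pos_of_pos_of_lt_pi s1 (by linarith)
      have p2 : 0 < Real.sin (Real.pi / 2 - x) :=
        Real.sin_pos_of_pos_of_lt_pi (by linarith) (by linarith)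
      apply HasDerivAt.hasDerivWithinAt
      have hB : HasDerivAt (fun x => Real.pi / 2 - x) (-1) x := (hasDerivAt_id x).const_sub _
      exact (((h74_log_deriv p1).neg).add
        ((((h74_log_deriv p2).comp x hB).neg).mul_const (-1))).add
        ((hasDerivAt_id x).const_mul 2)
    · intro x hx
      rw [interior_Icc] at hx
      obtain ⟨s1, s2⟩ := hx
      have p1 : 0 < Real.sin x := Real.sin_pos_of_pos_of_lt_pi s1 (by linarith)
      have p2 : 0 < Real.cos x := Real.cos_pos_of_mem_Ioo ⟨by linarith, by linarith⟩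
      rw [Real.cos_pi_div_two_sub, Real.sin_pi_div_two_sub]
      have : Real.cos x / Real.sin x + Real.sin x / Real.cos x ≥ 2 := by
        rw [ge_iff_le, div_add_div _ _ p1.ne' p2.ne', le_div_iff₀ (by positivity)]
        nlinarith [sq_nonneg (Real.cos x - Real.sin x)]
      linarith
  have h := hconc.2 (show x ∈ Set.Icc (0 : ℝ) (Real.pi / 2) from ⟨hx, by linarith⟩)
    (show y ∈ Set.Icc (0 : ℝ) (Real.pi / 2) from ⟨hy, by linarith⟩)
    (show (0 : ℝ) ≤ 1 / 2 by norm_num) (show (0 : ℝ) ≤ 1 / 2 by norm_num)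
    (show (1 / 2 : ℝ) + 1 / 2 = 1 by norm_num)
  simp only [smul_eq_mul] at h
  have e : 1 / 2 * x + 1 / 2 * y = (x + y) / 2 := by ring
  rw [e] at h
  nlinarith [h]

theorem Cor.vol_concave {c d : Cor ℝ} (hc : c.Ok) (hd : d.Ok) {t : ℝ} (h0 : 0 ≤ t) (h1 : t ≤ 1) :
    (1 - t) * c.vol + t * d.vol ≤ (Cor.mix t c d).vol := by
  have hpi := Real.pi_pos
  obtain ⟨cL, cR, cB, cT, csum, cBn, cTn, cLn, cRn, cn2⟩ := hc
  obtain ⟨dL, dR, dB, dT, dsum, dBn, dTn, dLn, dRn, dn2⟩ := hd
  have k1 := h74_tet_concave (a := c.n) (b := Real.pi / 2 - c.n) (a' := d.n)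
    (b' := Real.pi / 2 - d.n) (by linarith) (by linarith) (by linarith) (by linarith)
    (by linarith) (by linarith) h0 h1
  have k2 := h74_tet_concave (a := c.uL) (b := Real.pi - c.n - c.uL) (a' := d.uL)
    (b' := Real.pi - d.n - d.uL) (by linarith) (by linarith) (by linarith) (by linarith)
    (by linarith) (by linarith) h0 h1
  have k3 := h74_tet_concave (a := c.uR) (b := Real.pi - c.n - c.uR) (a' := d.uR)
    (b' := Real.pi - d.n - d.uR) (by linarith) (by linarith) (by linarith) (by linarith)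
    (by linarith) (by linarith) h0 h1
  have k4 := h74_tet_concave (a := c.uB) (b := c.n - c.uB) (a' := d.uB)
    (b' := d.n - d.uB) (by linarith) (by linarith) (by linarith) (by linarith)
    (by linarith) (by linarith) h0 h1
  have k5 := h74_tet_concave (a := c.uT) (b := c.n - c.uT) (a' := d.uT)
    (b' := d.n - d.uT) (by linarith) (by linarith) (by linarith) (by linarith)
    (by linarith) (by linarith) h0 h1
  have e1 : (1 - t) * (Real.pi / 2 - c.n) + t * (Real.pi / 2 - d.n) =
      Real.pi / 2 - ((1 - t) * c.n + t * d.n) := by ring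
  have e2 : (1 - t) * (Real.pi - c.n - c.uL) + t * (Real.pi - d.n - d.uL) =
      Real.pi - ((1 - t) * c.n + t * d.n) - ((1 - t) * c.uL + t * d.uL) := by ring
  have e3 : (1 - t) * (Real.pi - c.n - c.uR) + t * (Real.pi - d.n - d.uR) =
      Real.pi - ((1 - t) * c.n + t * d.n) - ((1 - t) * c.uR + t * d.uR) := by ring
  have e4 : (1 - t) * (c.n - c.uB) + t * (d.n - d.uB) =
      ((1 - t) * c.n + t * d.n) - ((1 - t) * c.uB + t * d.uB) := by ring
  have e5 : (1 - t) * (c.n - c.uT) + t * (d.n - d.uT) =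
      ((1 - t) * c.n + t * d.n) - ((1 - t) * c.uT + t * d.uT) := by ring
  rw [e1] at k1
  rw [e2] at k2
  rw [e3] at k3
  rw [e4] at k4
  rw [e5] at k5
  unfold Cor.vol Cor.mix
  simp only
  nlinarith [k1, k2, k3, k4, k5]

theorem Cor.vol_mix {c d : Cor ℝ} (hc : c.Ok) (hd : d.Ok) :
    (c.vol + d.vol) / 2 + (c.n - d.n) ^ 2 / 4 ≤ (Cor.mix (1 / 2) c d).vol := by
  have hpi := Real.pi_pos
  obtain ⟨cL, cR, cB, cT, csum, cBn, cTn, cLn, cRn, cn2⟩ := hc
  obtain ⟨dL, dR, dB, dT, dsum, dBn, dTn, dLn, dRn, dn2⟩ := hd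
  have h0 : (0 : ℝ) ≤ 1 / 2 := by norm_num
  have h1 : (1 / 2 : ℝ) ≤ 1 := by norm_num
  have k1 := h74_n_concave (x := c.n) (y := d.n) (by linarith) (by linarith) (by linarith)
    (by linarith)
  have k2 := h74_tet_concave (a := c.uL) (b := Real.pi - c.n - c.uL) (a' := d.uL)
    (b' := Real.pi - d.n - d.uL) (by linarith) (by linarith) (by linarith) (by linarith)
    (by linarith) (by linarith) h0 h1
  have k3 := h74_tet_concave (a := c.uR) (b := Real.pi - c.n - c.uR) (a' := d.uR)
    (b' := Real.pi - d.n - d.uR) (by linarith) (by linarith) (by linarith) (by linarith)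
    (by linarith) (by linarith) h0 h1
  have k4 := h74_tet_concave (a := c.uB) (b := c.n - c.uB) (a' := d.uB)
    (b' := d.n - d.uB) (by linarith) (by linarith) (by linarith) (by linarith)
    (by linarith) (by linarith) h0 h1
  have k5 := h74_tet_concave (a := c.uT) (b := c.n - c.uT) (a' := d.uT)
    (b' := d.n - d.uT) (by linarith) (by linarith) (by linarith) (by linarith)
    (by linarith) (by linarith) h0 h1
  have e1 : (c.n + d.n) / 2 = (1 - 1 / 2) * c.n + 1 / 2 * d.n := by ring
  have e2 : (1 - 1 / 2) * (Real.pi - c.n - c.uL) + 1 / 2 * (Real.pi - d.n - d.uL) =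
      Real.pi - ((1 - 1 / 2) * c.n + 1 / 2 * d.n) - ((1 - 1 / 2) * c.uL + 1 / 2 * d.uL) := by ring
  have e3 : (1 - 1 / 2) * (Real.pi - c.n - c.uR) + 1 / 2 * (Real.pi - d.n - d.uR) =
      Real.pi - ((1 - 1 / 2) * c.n + 1 / 2 * d.n) - ((1 - 1 / 2) * c.uR + 1 / 2 * d.uR) := by ring
  have e4 : (1 - 1 / 2) * (c.n - c.uB) + 1 / 2 * (d.n - d.uB) =
      ((1 - 1 / 2) * c.n + 1 / 2 * d.n) - ((1 - 1 / 2) * c.uB + 1 / 2 * d.uB) := by ring
  have e5 : (1 - 1 / 2) * (c.n - c.uT) + 1 / 2 * (d.n - d.uT) =
      ((1 - 1 / 2) * c.n + 1 / 2 * d.n) - ((1 - 1 / 2) * c.uT + 1 / 2 * d.uT) := by ring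
  rw [e1] at k1
  rw [e2] at k2
  rw [e3] at k3
  rw [e4] at k4
  rw [e5] at k5
  unfold Cor.vol Cor.mix
  simp only
  nlinarith [k1, k2, k3, k4, k5, sq_nonneg (c.n - d.n)]

end Pool.Agent.Helper9.FA
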