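import Pool.Agent.Helper74.FA.GAUSSB

/-! # GAUSS: the phases -/

namespace Pool.Agent.Helper9.FA

open Finset Filter Topology MeasureTheory
open Pool.Agent.Helper9.Kashaev
open Pool.Agent.Helper9 (TB.sf TB.sb TB.sf_succ TB.sf_pos)

theorem h74_integral_floor (f : ℕ → ℂ) (M : ℕ) (h0 : f 0 = 0) (h1 : ∀ k, M ≤ k → f k = 0) :
    ∫ x : ℝ, f ⌊x⌋₊ = ∑ k ∈ range M, f k := by
  have e : (fun x : ℝ => f ⌊x⌋₊) = fun x => ∑ k ∈ range M,
      Set.indicator (Set.Ico (k : ℝ) (k + 1)) (fun _ => f k) x := by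
    funext x
    by_cases hx : 0 ≤ x
    · by_cases hM : ⌊x⌋₊ < M
      · rw [Finset.sum_eq_single ⌊x⌋₊]
        · rw [Set.indicator_of_mem]
          exact ⟨Nat.floor_le hx, Nat.lt_floor_add_one x⟩
        · intro k hk hne
          rw [Set.indicator_of_notMem]
          intro hc
          exact hne ((Nat.floor_eq_iff hx).mpr hc).symm
        · intro hc
          exact absurd (mem_range.mpr hM) hc
      · rw [h1 _ (not_lt.mp hM), Finset.sum_eq_zero]
        intro k hk
        rw [Set.indicator_of_notMem]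
        intro hc
        have := (Nat.floor_eq_iff hx).mpr hc
        rw [mem_range] at hk
        omega
    · have h2 : ⌊x⌋₊ = 0 := Nat.floor_of_nonpos (not_le.mp hx).le
      rw [h2, h0, Finset.sum_eq_zero]
      intro k hk
      rw [Set.indicator_of_notMem]
      intro hc
      have : (0 : ℝ) ≤ k := Nat.cast_nonneg _
      exact hx (this.trans hc.1)
  rw [e, integral_finsetSum]
  · apply sum_congr rfl
    intro k _
    rw [integral_indicator measurableSet_Ico, setIntegral_const]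
    simp [Measure.real]
  · intro k _
    rw [integrable_indicator_iff measurableSet_Ico]
    exact (continuous_const.integrableOn_Icc (a := (k : ℝ)) (b := (k : ℝ) + 1)).mono_set
      Set.Ico_subset_Icc_self

theorem h74_integral_scaled (f : ℕ → ℂ) (M : ℕ) (h0 : f 0 = 0) (h1 : ∀ k, M ≤ k → f k = 0) :
    ∫ y : ℝ, f ⌊(M : ℝ) / 2 + Real.sqrt M * y⌋₊ =
      ((1 / Real.sqrt M : ℝ) : ℂ) * ∑ k ∈ range M, f k := by
  have e1 := Measure.integral_comp_mul_left
    (fun x : ℝ => f ⌊(M : ℝ) / 2 + x⌋₊) (Real.sqrt M)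
  have e2 := integral_add_left_eq_self (μ := volume) (fun x : ℝ => f ⌊x⌋₊) ((M : ℝ) / 2)
  rw [e1, e2, h74_integral_floor f M h0 h1, abs_of_nonneg (by positivity)]
  simp

/-- the value of the limit -/
noncomputable def h74L (a : ℤ) (τ : ℝ) : ℂ := (1 / (Real.tan τ - Complex.I * a)) ^ (1 / 2 : ℂ)

theorem h74_tan_pos {τ : ℝ} (h : τ ∈ Set.Ioo 0 (Real.pi / 2)) : 0 < Real.tan τ :=
  Real.tan_pos_of_pos_of_lt_pi_div_two h.1 h.2

theorem h74_lim {N n : ℕ → ℕ} {τ : ℝ} (h : H74 N n τ) (a : ℤ) :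
    Tendsto (fun j => ((1 / Real.sqrt (N j) : ℝ) : ℂ) *
      ∑ k ∈ range (N j), thx (N j) a k * (h74h (N j) (n j) k : ℂ)) atTop (𝓝 (h74L a τ)) := by
  have hpi := Real.pi_pos
  have ht := h74_tan_pos ⟨h.h0, h.h1⟩
  have hc : 0 < τ / (2 * Real.pi) := div_pos h.h0 (by positivity)
  have h1 : Tendsto (fun j => ∫ y : ℝ, H74.ff (N j) (n j) a
      ⌊(N j : ℝ) / 2 + Real.sqrt (N j) * y⌋₊) atTop
      (𝓝 (∫ y : ℝ, Complex.exp (-(Real.pi * (Real.tan τ - Complex.I * a)) * (y : ℂ) ^ 2))) := by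
    apply tendsto_integral_filter_of_dominated_convergence
      (fun y => Real.exp (τ / (2 * Real.pi)) * Real.exp (-(2 * (τ / (2 * Real.pi))) * y ^ 2))
    · apply Eventually.of_forall
      intro j
      apply Measurable.aestronglyMeasurable
      apply (measurable_from_top (f := H74.ff (N j) (n j) a)).comp
      apply Nat.measurable_floor.comp
      fun_prop
    · filter_upwards [h.enN, h.en, h.ec] with j g1 g2 g3
      apply Eventually.of_forall
      intro y
      exact H74.bound (by omega) g2 hc g3 a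
    · apply Integrable.const_mul
      exact integrable_exp_neg_mul_sq (by positivity)
    · apply Eventually.of_forall
      intro y
      exact h.lff a y
  have e : ∫ y : ℝ, Complex.exp (-(Real.pi * (Real.tan τ - Complex.I * a)) * (y : ℂ) ^ 2) =
      h74L a τ := by
    rw [integral_gaussian_complex]
    · unfold h74L
      congr 1
      have hpi' : (Real.pi : ℂ) ≠ 0 := by exact_mod_cast hpi.ne'
      rw [div_mul_eq_div_div, div_self hpi']
    · simp
      positivity
  rw [e] at h1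
  apply h1.congr'
  filter_upwards [h.en] with j hj
  rw [h74_integral_scaled (H74.ff (N j) (n j) a) (N j) (H74.ff_zero hj a)
    (fun k hk => H74.ff_large hj a hk)]
  rfl

theorem h74_re {a : ℤ} {τ : ℝ} (h : τ ∈ Set.Ioo 0 (Real.pi / 2)) :
    0 < ((Real.tan τ : ℂ) - Complex.I * a).re := by
  simp
  exact h74_tan_pos h

theorem h74_ne {a : ℤ} {τ : ℝ} (h : τ ∈ Set.Ioo 0 (Real.pi / 2)) :
    ((Real.tan τ : ℂ) - Complex.I * a) ≠ 0 := by
  intro hc
  have := h74_re (a := a) h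
  rw [hc] at this
  simp at this

theorem h74L_ne {a : ℤ} {τ : ℝ} (h : τ ∈ Set.Ioo 0 (Real.pi / 2)) : h74L a τ ≠ 0 := by
  unfold h74L
  rw [Complex.cpow_ne_zero_iff]
  left
  exact one_div_ne_zero (h74_ne h)

theorem h74L_norm {a : ℤ} {τ : ℝ} : ‖h74L a τ‖ =
    (‖((Real.tan τ : ℂ) - Complex.I * a)‖⁻¹) ^ (1 / 2 : ℝ) := by
  unfold h74L
  have : (1 / 2 : ℂ) = ((1 / 2 : ℝ) : ℂ) := by push_cast; rfl
  rw [this, Complex.norm_cpow_real]
  simp

theorem h74L_cont (a : ℤ) : ContinuousOn (h74L a) (Set.Ioo 0 (Real.pi / 2)) := by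
  intro τ hτ
  apply ContinuousAt.continuousWithinAt
  unfold h74L
  have hc : Real.cos τ ≠ 0 :=
    (Real.cos_pos_of_mem_Ioo ⟨by linarith [hτ.1, Real.pi_pos], hτ.2⟩).ne'
  have h1 : ContinuousAt (fun τ : ℝ => ((Real.tan τ : ℂ) - Complex.I * a)) τ := by
    apply ContinuousAt.sub _ continuousAt_const
    exact (Complex.continuous_ofReal.continuousAt).comp (Real.continuousAt_tan.mpr hc)
  have h2 : ContinuousAt (fun τ : ℝ => 1 / ((Real.tan τ : ℂ) - Complex.I * a)) τ :=
    continuousAt_const.div h1 (h74_ne hτ)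
  apply ContinuousAt.cpow h2 continuousAt_const
  left
  rw [one_div, Complex.inv_re]
  apply div_pos (h74_re hτ)
  exact Complex.normSq_pos.mpr (h74_ne hτ)

/-- the limit of the ratio -/
theorem GG_ratio (a : ℤ) : ∃ r : ℝ → ℂ, ContinuousOn r (Set.Ioo 0 (Real.pi / 2)) ∧
    (∀ τ ∈ Set.Ioo 0 (Real.pi / 2), r τ ≠ 0 ∧ ‖r τ‖ ≤ 1) ∧
    ∀ α β : ℝ, 0 < α → β < Real.pi / 2 → ∀ ε : ℝ, 0 < ε → ∃ N0 : ℕ, ∀ N : ℕ, N0 ≤ N → ∀ n : ℕ,
      α ≤ Real.pi * n / (N - 1) → Real.pi * n / (N - 1) ≤ β →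
      ‖GG N a n - r (Real.pi * n / (N - 1)) * (G0 N n : ℝ)‖ ≤ ε * G0 N n := by
  have hcont : ContinuousOn (fun τ => h74L a τ / h74L 0 τ) (Set.Ioo 0 (Real.pi / 2)) :=
    (h74L_cont a).div (h74L_cont 0) (fun τ hτ => h74L_ne hτ)
  refine ⟨fun τ => h74L a τ / h74L 0 τ, hcont, ?_, ?_⟩
  · intro τ hτ
    refine ⟨div_ne_zero (h74L_ne hτ) (h74L_ne hτ), ?_⟩
    rw [norm_div, div_le_one (norm_pos_iff.mpr (h74L_ne hτ)), h74L_norm, h74L_norm]
    apply Real.rpow_le_rpow (by positivity) _ (by norm_num)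
    apply inv_anti₀ (norm_pos_iff.mpr (h74_ne hτ))
    have h1 : ‖((Real.tan τ : ℂ) - Complex.I * (0 : ℤ))‖ = Real.tan τ := by
      simp only [Int.cast_zero, mul_zero, sub_zero, Complex.norm_real]
      exact Real.norm_of_nonneg (h74_tan_pos hτ).le
    rw [h1]
    refine le_trans (le_of_eq ?_) (Complex.re_le_norm _)
    rw [Complex.sub_re, Complex.ofReal_re]
    simp
  · intro α β hα hβ ε hε
    by_contra hcon
    push Not at hcon
    choose N hN n hn1 hn2 hbad using hcon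
    have hcpt : IsCompact (Set.Icc α β) := isCompact_Icc
    obtain ⟨τ, hτ, φ, hφ, hlim⟩ := hcpt.tendsto_subseq
      (x := fun j => Real.pi * n j / ((N j : ℝ) - 1)) (fun j => ⟨hn1 j, hn2 j⟩)
    have hτ' : τ ∈ Set.Ioo 0 (Real.pi / 2) := ⟨by linarith [hτ.1], by linarith [hτ.2]⟩
    have hNt : Tendsto N atTop atTop := tendsto_atTop_mono hN tendsto_id
    have H : H74 (fun j => N (φ j)) (fun j => n (φ j)) τ :=
      ⟨hNt.comp hφ.tendsto_atTop, hlim, hτ'.1, hτ'.2⟩
    have l1 := h74_lim H a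
    have l2 := h74_lim H 0
    have l3 : Tendsto (fun j => h74L a (Real.pi * n (φ j) / ((N (φ j) : ℝ) - 1)) /
        h74L 0 (Real.pi * n (φ j) / ((N (φ j) : ℝ) - 1))) atTop
        (𝓝 (h74L a τ / h74L 0 τ)) := by
      have h1 : ContinuousAt (fun τ => h74L a τ / h74L 0 τ) τ :=
        hcont.continuousAt (isOpen_Ioo.mem_nhds hτ')
      exact h1.tendsto.comp hlim
    have l4 := (l1.sub (l3.mul l2)).norm
    have l5 := (l2.norm).const_mul ε
    have hz : h74L a τ - h74L a τ / h74L 0 τ * h74L 0 τ = 0 := by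
      rw [div_mul_cancel₀ _ (h74L_ne hτ'), sub_self]
    rw [hz, norm_zero] at l4
    have l6 : ε * ‖h74L 0 τ‖ ≤ 0 := by
      apply le_of_tendsto_of_tendsto l5 l4
      filter_upwards [H.enN, H.epos] with j hj hj2
      have hM : (0 : ℝ) < N (φ j) := by
        have : 0 < N (φ j) := by omega
        exact_mod_cast this
      have hs : 0 < Real.sqrt (N (φ j)) := Real.sqrt_pos.mpr hM
      have b := hbad (φ j)
      have hW := h74_W_pos (N := N (φ j)) (n := n (φ j)) (by omega)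
      rw [h74_GG (by omega), h74_G0 (by omega)] at b
      have th0 : ∀ k, thx (N (φ j)) 0 k = 1 := by
        intro k; unfold thx; simp
      have e1 : ∑ k ∈ range (N (φ j)), thx (N (φ j)) 0 k *
          (h74h (N (φ j)) (n (φ j)) k : ℂ) =
          ((∑ k ∈ range (N (φ j)), h74h (N (φ j)) (n (φ j)) k : ℝ) : ℂ) := by
        push_cast
        apply sum_congr rfl
        intro k _
        rw [th0, one_mul]
      rw [e1]
      have hS : 0 ≤ ∑ k ∈ range (N (φ j)), h74h (N (φ j)) (n (φ j)) k :=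
        sum_nonneg fun k _ => h74_h_nonneg (by omega) k
      generalize (∑ k ∈ range (N (φ j)), h74h (N (φ j)) (n (φ j)) k) = S at b hS ⊢
      generalize (∑ k ∈ range (N (φ j)), thx (N (φ j)) a k *
        (h74h (N (φ j)) (n (φ j)) k : ℂ)) = G at b ⊢
      generalize (h74L a (Real.pi * n (φ j) / ((N (φ j) : ℝ) - 1)) /
        h74L 0 (Real.pi * n (φ j) / ((N (φ j) : ℝ) - 1))) = R at b ⊢
      generalize h74W (N (φ j)) (n (φ j)) = W at b hW ⊢
      have b1 : (W : ℂ) * G - R * ((W * S : ℝ) : ℂ) = (W : ℂ) * (G - R * S) := by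
        push_cast; ring
      rw [b1, norm_mul, Complex.norm_real, Real.norm_of_nonneg hW.le] at b
      have b2 : ε * S < ‖G - R * S‖ := by
        by_contra hc
        have := mul_le_mul_of_nonneg_left (not_lt.mp hc) hW.le
        linarith
      have b3 : ((1 / Real.sqrt (N (φ j)) : ℝ) : ℂ) * G -
          R * (((1 / Real.sqrt (N (φ j)) : ℝ) : ℂ) * (S : ℂ)) =
          ((1 / Real.sqrt (N (φ j)) : ℝ) : ℂ) * (G - R * S) := by ring
      rw [b3, norm_mul, norm_mul, Complex.norm_real, Complex.norm_real,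
        Real.norm_of_nonneg (by positivity), Real.norm_of_nonneg hS]
      have b4 := mul_le_mul_of_nonneg_left b2.le (by positivity : 0 ≤ 1 / Real.sqrt (N (φ j)))
      linarith
    have l7 : 0 < ε * ‖h74L 0 τ‖ := mul_pos hε (norm_pos_iff.mpr (h74L_ne hτ'))
    linarith

end Pool.Agent.Helper9.FA
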