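import Mathlib
import Pool.Agent.Helper9.FA.ZDefs

/-! # GAUSS: the phases -/

namespace Pool.Agent.Helper9.FA

open Finset Filter Topology
open Pool.Agent.Helper9.Kashaev
open Pool.Agent.Helper9 (TB.sf TB.sb TB.sf_succ TB.sf_pos)

/-! ### algebra -/

theorem h74_sf_split (M : ℝ) (k : ℕ) : ∀ n ≤ k, TB.sf M k =
    TB.sf M (k - n) * ∏ i ∈ range n, TB.sb (((k : ℝ) - i) / M) := by
  intro n
  induction n with
  | zero => intro _; simp
  | succ n ih =>
    intro h
    rw [ih (by omega), prod_range_succ, show k - n = k - (n + 1) + 1 by omega, TB.sf_succ]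
    have : ((k - (n + 1) + 1 : ℕ) : ℝ) = (k : ℝ) - n := by
      rw [show k - (n + 1) + 1 = k - n by omega, Nat.cast_sub (by omega)]
    rw [this]
    ring

/-- the centered coordinate -/
noncomputable def h74z (N k : ℕ) : ℝ := (k : ℝ) - (N - 1) / 2

/-- the normalised weight -/
noncomputable def h74h (N n k : ℕ) : ℝ :=
  if n ≤ k ∧ k + n ≤ N - 1 then ∏ i ∈ range n,
    (1 - Real.sin (Real.pi * h74z N k / N) ^ 2 / Real.cos (Real.pi * (i + 1 / 2) / N) ^ 2) else 0

/-- the constant -/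
noncomputable def h74W (N n : ℕ) : ℝ :=
  (∏ i ∈ range n, (4 * Real.cos (Real.pi * (i + 1 / 2) / N) ^ 2)) / TB.sf N n ^ 2

theorem h74_pair {N : ℕ} (hN : 0 < N) (k i : ℝ) :
    TB.sb ((k - i) / N) * TB.sb (((N : ℝ) - 1 - k - i) / N) =
      4 * (Real.cos (Real.pi * (i + 1 / 2) / N) ^ 2 -
        Real.sin (Real.pi * (k - (N - 1) / 2) / N) ^ 2) := by
  have hN' : (N : ℝ) ≠ 0 := by positivity
  unfold TB.sb
  have e1 : Real.pi * ((k - i) / N) =
      Real.pi / 2 - (Real.pi * (i + 1 / 2) / N - Real.pi * (k - (N - 1) / 2) / N) := by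
    field_simp; ring
  have e2 : Real.pi * (((N : ℝ) - 1 - k - i) / N) =
      Real.pi / 2 - (Real.pi * (i + 1 / 2) / N + Real.pi * (k - (N - 1) / 2) / N) := by
    field_simp; ring
  rw [e1, e2, Real.sin_pi_div_two_sub, Real.sin_pi_div_two_sub, Real.cos_sub, Real.cos_add]
  have h1 := Real.sin_sq_add_cos_sq (Real.pi * (i + 1 / 2) / N)
  have h2 := Real.sin_sq_add_cos_sq (Real.pi * (k - (N - 1) / 2) / N)
  linear_combination (-4 * Real.sin (Real.pi * (k - (N - 1) / 2) / N) ^ 2) * h1 +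
    (4 * Real.cos (Real.pi * (i + 1 / 2) / N) ^ 2) * h2

theorem h74_cos_pos {N n i : ℕ} (h : 2 * n < N) (hi : i < n) :
    0 < Real.cos (Real.pi * (i + 1 / 2) / N) := by
  have hpi := Real.pi_pos
  have hN : (0 : ℝ) < N := by
    have : 0 < N := by omega
    exact_mod_cast this
  apply Real.cos_pos_of_mem_Ioo
  have h1 : (i : ℝ) + 1 ≤ n := by exact_mod_cast hi
  have h2 : (2 : ℝ) * n < N := by exact_mod_cast h
  constructor
  · have : 0 ≤ Real.pi * ((i : ℝ) + 1 / 2) / N := by positivity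
    linarith
  · rw [div_lt_iff₀ hN]
    nlinarith

theorem h74_weight {N n : ℕ} (h : 2 * n < N) {k : ℕ} (hk : k < N) :
    bn N k n * bn N (N - 1 - k) n = h74W N n * h74h N n k := by
  have hN : 0 < N := by omega
  unfold h74h
  by_cases h1 : n ≤ k
  swap
  · simp [bn, h1]
  by_cases h2 : n ≤ N - 1 - k
  swap
  · have h3 : ¬ (k + n ≤ N - 1) := by omega
    simp [bn, h2, h3]
  have h3 : n ≤ k ∧ k + n ≤ N - 1 := ⟨h1, by omega⟩
  rw [if_pos h3]
  unfold bn h74W
  rw [if_pos h1, if_pos h2, h74_sf_split N k n h1, h74_sf_split N (N - 1 - k) n h2]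
  have p0 : TB.sf N n ≠ 0 := (TB.sf_pos (by exact_mod_cast (by omega : n < N))).ne'
  have p1 : TB.sf N (k - n) ≠ 0 := (TB.sf_pos (by exact_mod_cast (by omega : k - n < N))).ne'
  have p2 : TB.sf N (N - 1 - k - n) ≠ 0 :=
    (TB.sf_pos (by exact_mod_cast (by omega : N - 1 - k - n < N))).ne'
  have e : (∏ i ∈ range n, TB.sb (((k : ℝ) - i) / N)) *
      (∏ i ∈ range n, TB.sb ((((N - 1 - k : ℕ) : ℝ) - i) / N)) =
      (∏ i ∈ range n, (4 * Real.cos (Real.pi * (i + 1 / 2) / N) ^ 2)) * ∏ i ∈ range n,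
    (1 - Real.sin (Real.pi * h74z N k / N) ^ 2 / Real.cos (Real.pi * (i + 1 / 2) / N) ^ 2) := by
    rw [← prod_mul_distrib, ← prod_mul_distrib]
    apply prod_congr rfl
    intro i hi
    rw [mem_range] at hi
    have c := h74_cos_pos h hi
    have e3 : (((N - 1 - k : ℕ) : ℝ) - i) = (N : ℝ) - 1 - k - i := by
      rw [Nat.cast_sub (by omega), Nat.cast_sub (by omega)]
      simp
    rw [e3, h74_pair hN]
    unfold h74z
    generalize Real.cos (Real.pi * ((i : ℝ) + 1 / 2) / N) = C at c ⊢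
    generalize Real.sin (Real.pi * ((k : ℝ) - (N - 1) / 2) / N) = S
    field_simp
  rw [div_mul_div_comm, div_mul_eq_mul_div, div_eq_div_iff (by positivity) (by positivity)]
  linear_combination (TB.sf N (k - n) * TB.sf N (N - 1 - k - n) * TB.sf N n ^ 2) * e

theorem h74_W_pos {N n : ℕ} (h : 2 * n < N) : 0 < h74W N n := by
  unfold h74W
  apply div_pos
  · apply prod_pos
    intro i hi
    rw [mem_range] at hi
    have c := h74_cos_pos h hi
    positivity
  · have : 0 < TB.sf N n := TB.sf_pos (by exact_mod_cast (by omega : n < N))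
    positivity

theorem h74_GG {N n : ℕ} (h : 2 * n < N) (a : ℤ) :
    GG N a n = (h74W N n : ℂ) * ∑ k ∈ range N, thx N a k * (h74h N n k : ℂ) := by
  unfold GG
  rw [mul_sum]
  apply sum_congr rfl
  intro k hk
  rw [mem_range] at hk
  rw [h74_weight h hk]
  push_cast
  ring

theorem h74_G0 {N n : ℕ} (h : 2 * n < N) :
    G0 N n = h74W N n * ∑ k ∈ range N, h74h N n k := by
  unfold G0
  rw [mul_sum]
  apply sum_congr rfl
  intro k hk
  rw [mem_range] at hk
  rw [h74_weight h hk]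

/-! ### bounds -/

theorem h74_fac_nonneg {N n : ℕ} (h : 2 * n < N) {k : ℕ} (hk : n ≤ k ∧ k + n ≤ N - 1) {i : ℕ}
    (hi : i < n) : 0 ≤ 1 - Real.sin (Real.pi * h74z N k / N) ^ 2 /
      Real.cos (Real.pi * (i + 1 / 2) / N) ^ 2 := by
  have c := h74_cos_pos h hi
  have hN : 0 < N := by omega
  have p1 : 0 < TB.sb (((k : ℝ) - i) / N) := by
    have : ((k : ℝ) - i) = ((k - i : ℕ) : ℝ) := by rw [Nat.cast_sub (by omega)]
    rw [this]
    apply Pool.Agent.Helper9.TB.sb_pos
    · have : 0 < k - i := by omega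
      positivity
    · rw [div_lt_one (by exact_mod_cast hN)]
      exact_mod_cast (by omega : k - i < N)
  have p2 : 0 < TB.sb (((N : ℝ) - 1 - k - i) / N) := by
    have : ((N : ℝ) - 1 - k - i) = ((N - 1 - k - i : ℕ) : ℝ) := by
      rw [Nat.cast_sub (by omega), Nat.cast_sub (by omega), Nat.cast_sub (by omega)]
      simp
    rw [this]
    apply Pool.Agent.Helper9.TB.sb_pos
    · have : 0 < N - 1 - k - i := by omega
      positivity
    · rw [div_lt_one (by exact_mod_cast hN)]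
      exact_mod_cast (by omega : N - 1 - k - i < N)
  have p3 := mul_pos p1 p2
  rw [h74_pair hN] at p3
  rw [sub_nonneg, div_le_one (by positivity)]
  unfold h74z
  linarith

theorem h74_h_nonneg {N n : ℕ} (h : 2 * n < N) (k : ℕ) : 0 ≤ h74h N n k := by
  unfold h74h
  split_ifs with hk
  swap
  · exact le_rfl
  apply prod_nonneg
  intro i hi
  rw [mem_range] at hi
  exact h74_fac_nonneg h hk hi

theorem h74_h_le_exp {N n : ℕ} (h : 2 * n < N) (k : ℕ) (hk : n ≤ k ∧ k + n ≤ N - 1) :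
    h74h N n k ≤ Real.exp (-(Real.sin (Real.pi * h74z N k / N) ^ 2 *
      ∑ i ∈ range n, 1 / Real.cos (Real.pi * (i + 1 / 2) / N) ^ 2)) := by
  unfold h74h
  rw [if_pos hk]
  rw [mul_sum, ← sum_neg_distrib, Real.exp_sum]
  apply Finset.prod_le_prod
  · intro i hi
    rw [mem_range] at hi
    exact h74_fac_nonneg h hk hi
  · intro i hi
    have := Real.add_one_le_exp (-(Real.sin (Real.pi * h74z N k / N) ^ 2 *
      (1 / Real.cos (Real.pi * (i + 1 / 2) / N) ^ 2)))
    refine le_trans (le_of_eq ?_) this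
    ring

theorem h74_h_ge_exp {N n : ℕ} (h : 2 * n < N) (k : ℕ) (hk : n ≤ k ∧ k + n ≤ N - 1) {δ : ℝ}
    (hδ : δ < 1) (hb : ∀ i < n, Real.sin (Real.pi * h74z N k / N) ^ 2 /
      Real.cos (Real.pi * (i + 1 / 2) / N) ^ 2 ≤ δ) :
    Real.exp (-(Real.sin (Real.pi * h74z N k / N) ^ 2 *
      ∑ i ∈ range n, 1 / Real.cos (Real.pi * (i + 1 / 2) / N) ^ 2) / (1 - δ)) ≤ h74h N n k := by
  unfold h74h
  rw [if_pos hk]
  rw [mul_sum, ← sum_neg_distrib, sum_div, Real.exp_sum]
  apply Finset.prod_le_prod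
  · intro i hi
    exact (Real.exp_pos _).le
  · intro i hi
    rw [mem_range] at hi
    have c := h74_cos_pos h hi
    have hx := hb i hi
    have hx0 : 0 ≤ Real.sin (Real.pi * h74z N k / N) ^ 2 /
      Real.cos (Real.pi * (i + 1 / 2) / N) ^ 2 := by positivity
    rw [mul_one_div]
    generalize Real.sin (Real.pi * h74z N k / N) ^ 2 /
      Real.cos (Real.pi * (i + 1 / 2) / N) ^ 2 = x at hx hx0 ⊢
    have h1 : 0 < 1 - δ := by linarith
    have h2 : 0 < 1 - x := by linarith
    have h3 := Real.add_one_le_exp (x / (1 - x))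
    have h4 : x / (1 - x) + 1 = (1 - x)⁻¹ := by field_simp; ring
    rw [h4] at h3
    have h5 : Real.exp (x / (1 - x)) ≤ Real.exp (x / (1 - δ)) := by
      apply Real.exp_le_exp.mpr
      apply div_le_div_of_nonneg_left hx0 h1 (by linarith)
    have h6 := h3.trans h5
    rw [neg_div, Real.exp_neg]
    exact inv_le_of_inv_le₀ h2 h6

/-- the secant sum -/
theorem h74_sum_sec {N n : ℕ} (hn : 1 ≤ n) (h : 2 * n + 1 < N) :
    Real.tan (Real.pi * (n - 1 / 2) / N) - Real.tan (Real.pi * (1 / 2) / N) ≤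
      Real.pi / N * ∑ i ∈ range n, 1 / Real.cos (Real.pi * (i + 1 / 2) / N) ^ 2 ∧
    Real.pi / N * ∑ i ∈ range n, 1 / Real.cos (Real.pi * (i + 1 / 2) / N) ^ 2 ≤
      Real.tan (Real.pi * (n + 1 / 2) / N) - Real.tan (Real.pi * (1 / 2) / N) := by
  have hpi := Real.pi_pos
  have hN : (0 : ℝ) < N := by
    have : 0 < N := by omega
    exact_mod_cast this
  have step : ∀ i : ℕ, 2 * i + 3 < N →
      Real.pi / N * (1 / Real.cos (Real.pi * (i + 1 / 2) / N) ^ 2) ≤
        Real.tan (Real.pi * ((i + 1 : ℕ) + 1 / 2) / N) - Real.tan (Real.pi * (i + 1 / 2) / N) ∧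
      Real.tan (Real.pi * ((i + 1 : ℕ) + 1 / 2) / N) - Real.tan (Real.pi * (i + 1 / 2) / N) ≤
      Real.pi / N * (1 / Real.cos (Real.pi * ((i + 1 : ℕ) + 1 / 2) / N) ^ 2) := by
    intro i hi
    have hi' : (2 : ℝ) * i + 3 < N := by exact_mod_cast hi
    set x := Real.pi * ((i : ℝ) + 1 / 2) / N with hx
    set y := Real.pi * (((i + 1 : ℕ) : ℝ) + 1 / 2) / N with hy
    have hxy : y - x = Real.pi / N := by
      rw [hx, hy]; push_cast; field_simp; ring
    have hx0 : 0 ≤ x := by positivity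
    have hlt : x < y := by
      have : 0 < Real.pi / N := by positivity
      linarith
    have hy2 : y < Real.pi / 2 := by
      rw [hy, div_lt_iff₀ hN]; push_cast; nlinarith
    have hpos : ∀ z ∈ Set.Icc x y, 0 < Real.cos z := fun z hz =>
      Real.cos_pos_of_mem_Ioo ⟨by linarith [hz.1], by linarith [hz.2]⟩
    obtain ⟨ξ, hξ, he⟩ := exists_hasDerivAt_eq_slope Real.tan (fun z => 1 / Real.cos z ^ 2) hlt
      (fun z hz => (Real.continuousAt_tan.mpr (hpos z hz).ne').continuousWithinAt)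
      (fun z hz => Real.hasDerivAt_tan (hpos z ⟨hz.1.le, hz.2.le⟩).ne')
    rw [eq_div_iff (by linarith : y - x ≠ 0)] at he
    rw [← he, hxy, mul_comm]
    have c1 : Real.cos ξ ≤ Real.cos x :=
      Real.cos_le_cos_of_nonneg_of_le_pi hx0 (by linarith [hξ.2]) hξ.1.le
    have c2 : Real.cos y ≤ Real.cos ξ :=
      Real.cos_le_cos_of_nonneg_of_le_pi (by linarith [hξ.1]) (by linarith) hξ.2.le
    have cy := hpos y ⟨hlt.le, le_rfl⟩
    have cξ := hpos ξ ⟨hξ.1.le, hξ.2.le⟩
    have cx := hpos x ⟨le_rfl, hlt.le⟩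
    constructor
    · apply mul_le_mul_of_nonneg_right _ (by positivity)
      apply one_div_le_one_div_of_le (by positivity)
      exact pow_le_pow_left₀ cξ.le c1 2
    · rw [mul_comm]
      apply mul_le_mul_of_nonneg_left _ (by positivity)
      apply one_div_le_one_div_of_le (by positivity)
      exact pow_le_pow_left₀ cy.le c2 2
  have up : ∀ m : ℕ, 2 * m + 1 < N →
      Real.pi / N * ∑ i ∈ range m, 1 / Real.cos (Real.pi * (i + 1 / 2) / N) ^ 2 ≤
      Real.tan (Real.pi * (m + 1 / 2) / N) - Real.tan (Real.pi * (1 / 2) / N) := by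
    intro m
    induction m with
    | zero => intro _; simp
    | succ m ih =>
      intro hm
      rw [sum_range_succ, mul_add (Real.pi / (N : ℝ))]
      have h1 := ih (by omega)
      have h2 := (step m (by omega)).1
      linarith
  have lo : ∀ m : ℕ, 2 * m + 3 < N →
      Real.tan (Real.pi * (m + 1 / 2) / N) - Real.tan (Real.pi * (1 / 2) / N) ≤
      Real.pi / N * ∑ i ∈ range (m + 1), 1 / Real.cos (Real.pi * (i + 1 / 2) / N) ^ 2 := by
    intro m
    induction m with
    | zero =>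
      intro _
      simp only [zero_add, Nat.cast_zero, sub_self]
      positivity
    | succ m ih =>
      intro hm
      rw [sum_range_succ, mul_add (Real.pi / (N : ℝ))]
      have h1 := ih (by omega)
      have h2 := (step m (by omega)).2
      linarith
  refine ⟨?_, up n h⟩
  obtain ⟨m, rfl⟩ : ∃ m, n = m + 1 := ⟨n - 1, by omega⟩
  by_cases hm : 2 * m + 3 < N
  · have := lo m hm
    convert this using 4
    push_cast
    ring
  · omega

end Pool.Agent.Helper9.FA
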