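import Pool.Agent.Helper74.FA.GAUSSA

/-! # GAUSS: pointwise limits -/

namespace Pool.Agent.Helper9.FA

open Finset Filter Topology
open Pool.Agent.Helper9.Kashaev
open Pool.Agent.Helper9 (TB.sf TB.sb TB.sf_succ TB.sf_pos)

/-- sequences with a limit of `n / N` -/
structure H74 (N n : ℕ → ℕ) (τ : ℝ) : Prop where
  hN : Tendsto N atTop atTop
  hτ : Tendsto (fun j => Real.pi * n j / ((N j : ℝ) - 1)) atTop (𝓝 τ)
  h0 : 0 < τ
  h1 : τ < Real.pi / 2

namespace H74

variable {N n : ℕ → ℕ} {τ : ℝ}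

theorem lN (h : H74 N n τ) : Tendsto (fun j => (N j : ℝ)) atTop atTop :=
  tendsto_natCast_atTop_atTop.comp h.hN

theorem linv (h : H74 N n τ) : Tendsto (fun j => 1 / (N j : ℝ)) atTop (𝓝 0) := by
  simp only [one_div]
  exact h.lN.inv_tendsto_atTop

theorem lsqrt (h : H74 N n τ) : Tendsto (fun j => 1 / Real.sqrt (N j : ℝ)) atTop (𝓝 0) := by
  simp only [one_div]
  exact (Real.tendsto_sqrt_atTop.comp h.lN).inv_tendsto_atTop

theorem epos (h : H74 N n τ) : ∀ᶠ j in atTop, 2 ≤ N j := h.hN.eventually_ge_atTop 2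

theorem lnN' (h : H74 N n τ) : Tendsto (fun j => Real.pi * n j / (N j : ℝ)) atTop (𝓝 τ) := by
  have h1 : Tendsto (fun j => Real.pi * n j / ((N j : ℝ) - 1) * (1 - 1 / (N j : ℝ))) atTop
      (𝓝 (τ * (1 - 0))) := h.hτ.mul (tendsto_const_nhds.sub h.linv)
  rw [sub_zero, mul_one] at h1
  apply h1.congr'
  filter_upwards [h.epos] with j hj
  have : (2 : ℝ) ≤ N j := by exact_mod_cast hj
  have h2 : (N j : ℝ) ≠ 0 := by positivity
  have h3 : (N j : ℝ) - 1 ≠ 0 := by
    have : (0 : ℝ) < (N j : ℝ) - 1 := by linarith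
    exact this.ne'
  field_simp

theorem lnN (h : H74 N n τ) : Tendsto (fun j => (n j : ℝ) / N j) atTop (𝓝 (τ / Real.pi)) := by
  have := h.lnN'.div_const Real.pi
  apply this.congr
  intro j
  have hpi := Real.pi_ne_zero
  field_simp

theorem lim_lt (h : H74 N n τ) : τ / Real.pi < 1 / 2 := by
  have hpi := Real.pi_pos
  rw [div_lt_iff₀ hpi]
  linarith [h.h1]

theorem enN (h : H74 N n τ) : ∀ᶠ j in atTop, 2 * n j + 1 < N j := by
  have h1 : Tendsto (fun j => 2 * ((n j : ℝ) / N j) + 1 / (N j : ℝ)) atTop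
      (𝓝 (2 * (τ / Real.pi) + 0)) := (h.lnN.const_mul 2).add h.linv
  have h2 : 2 * (τ / Real.pi) + 0 < 1 := by linarith [h.lim_lt]
  filter_upwards [h1.eventually_lt_const h2, h.epos] with j hj hj2
  have h3 : (0 : ℝ) < N j := by
    have : 0 < N j := by omega
    exact_mod_cast this
  have h4 : 2 * ((n j : ℝ) / N j) + 1 / (N j : ℝ) = (2 * n j + 1) / N j := by
    field_simp
  rw [h4, div_lt_one h3] at hj
  exact_mod_cast hj

theorem ec (h : H74 N n τ) : ∀ᶠ j in atTop, τ / (2 * Real.pi) * N j ≤ n j := by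
  have hpi := Real.pi_pos
  have h2 : τ / (2 * Real.pi) < τ / Real.pi := by
    apply div_lt_div_of_pos_left h.h0 hpi
    linarith
  filter_upwards [h.lnN.eventually_const_lt h2, h.epos] with j hj hj2
  have h3 : (0 : ℝ) < N j := by
    have : 0 < N j := by omega
    exact_mod_cast this
  rw [lt_div_iff₀ h3] at hj
  exact hj.le

theorem en (h : H74 N n τ) : ∀ᶠ j in atTop, 1 ≤ n j := by
  have hpi := Real.pi_pos
  filter_upwards [h.ec, h.epos] with j hj hj2
  have h3 : (0 : ℝ) < N j := by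
    have : 0 < N j := by omega
    exact_mod_cast this
  have h4 : 0 < τ / (2 * Real.pi) * N j := by
    have := h.h0
    positivity
  have h5 : (0 : ℝ) < n j := by linarith
  exact_mod_cast h5

theorem cpos (h : H74 N n τ) : 0 < Real.cos τ :=
  Real.cos_pos_of_mem_Ioo ⟨by linarith [h.h0, h.h1, Real.pi_pos], h.h1⟩

/-- the secant sum -/
theorem lsum (h : H74 N n τ) : Tendsto (fun j => Real.pi / N j *
    ∑ i ∈ range (n j), 1 / Real.cos (Real.pi * (i + 1 / 2) / N j) ^ 2) atTop
    (𝓝 (Real.tan τ)) := by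
  have ht : ContinuousAt Real.tan τ := Real.continuousAt_tan.mpr h.cpos.ne'
  have ht0 : ContinuousAt Real.tan 0 := Real.continuousAt_tan.mpr (by simp)
  have hh : Tendsto (fun j => Real.pi / 2 * (1 / (N j : ℝ))) atTop (𝓝 0) := by
    have := h.linv.const_mul (Real.pi / 2)
    rwa [mul_zero] at this
  have h0 : Tendsto (fun j => Real.tan (Real.pi * (1 / 2) / N j)) atTop (𝓝 0) := by
    have := ht0.tendsto.comp hh
    rw [Real.tan_zero] at this
    apply this.congr
    intro j
    simp only [Function.comp]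
    congr 1
    ring
  have h1 : Tendsto (fun j => Real.tan (Real.pi * (n j - 1 / 2) / N j)) atTop
      (𝓝 (Real.tan τ)) := by
    have h2 := h.lnN'.sub hh
    rw [sub_zero] at h2
    apply (ht.tendsto.comp h2).congr
    intro j
    simp only [Function.comp]
    congr 1
    ring
  have h2 : Tendsto (fun j => Real.tan (Real.pi * (n j + 1 / 2) / N j)) atTop
      (𝓝 (Real.tan τ)) := by
    have h2 := h.lnN'.add hh
    rw [add_zero] at h2
    apply (ht.tendsto.comp h2).congr
    intro j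
    simp only [Function.comp]
    congr 1
    ring
  have h3 := h1.sub h0
  have h4 := h2.sub h0
  rw [sub_zero] at h3 h4
  apply tendsto_of_tendsto_of_tendsto_of_le_of_le' h3 h4
  · filter_upwards [h.enN, h.en] with j hj hj1 using (h74_sum_sec hj1 hj).1
  · filter_upwards [h.enN, h.en] with j hj hj1 using (h74_sum_sec hj1 hj).2

/-- the index at `y` -/
noncomputable def kk (N : ℕ → ℕ) (y : ℝ) (j : ℕ) : ℕ :=
  ⌊(N j : ℝ) / 2 + Real.sqrt (N j) * y⌋₊

theorem near {M : ℕ} {y : ℝ} (hx : 0 ≤ (M : ℝ) / 2 + Real.sqrt M * y) :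
    |h74z M ⌊(M : ℝ) / 2 + Real.sqrt M * y⌋₊ - Real.sqrt M * y| ≤ 1 / 2 := by
  have h1 := Nat.floor_le hx
  have h2 := Nat.lt_floor_add_one ((M : ℝ) / 2 + Real.sqrt M * y)
  unfold h74z
  rw [abs_le]
  constructor <;> linarith

theorem ex (h : H74 N n τ) (y : ℝ) : ∀ᶠ j in atTop,
    0 ≤ (N j : ℝ) / 2 + Real.sqrt (N j) * y := by
  have h1 := Real.tendsto_sqrt_atTop.comp h.lN
  filter_upwards [h1.eventually_ge_atTop (2 * |y|)] with j hj
  simp only [Function.comp] at hj
  have h2 : (N j : ℝ) = Real.sqrt (N j) * Real.sqrt (N j) :=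
    (Real.mul_self_sqrt (Nat.cast_nonneg _)).symm
  have h3 := neg_abs_le y
  have h4 : 0 ≤ Real.sqrt (N j) := Real.sqrt_nonneg _
  have h5 : (N j : ℝ) / 2 + Real.sqrt (N j) * y =
      Real.sqrt (N j) * (Real.sqrt (N j) / 2 + y) := by
    nth_rewrite 1 [h2]
    ring
  rw [h5]
  apply mul_nonneg h4
  linarith

theorem lz (h : H74 N n τ) (y : ℝ) : Tendsto (fun j => h74z (N j) (kk N y j) / Real.sqrt (N j))
    atTop (𝓝 y) := by
  rw [tendsto_iff_norm_sub_tendsto_zero]
  apply squeeze_zero_norm' (a := fun j => 1 / 2 * (1 / Real.sqrt (N j : ℝ)))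
  · filter_upwards [h.ex y, h.epos] with j hj hj2
    have h3 : (0 : ℝ) < N j := by
      have : 0 < N j := by omega
      exact_mod_cast this
    have h4 : 0 < Real.sqrt (N j) := Real.sqrt_pos.mpr h3
    have h1 := near hj
    rw [norm_norm, Real.norm_eq_abs]
    have h2 : h74z (N j) (kk N y j) / Real.sqrt (N j) - y =
        (h74z (N j) (kk N y j) - Real.sqrt (N j) * y) / Real.sqrt (N j) := by
      field_simp
    rw [h2, abs_div, abs_of_pos h4, mul_one_div]
    exact div_le_div_of_nonneg_right h1 h4.le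
  · have := h.lsqrt.const_mul (1 / 2)
    rwa [mul_zero] at this

theorem lzN (h : H74 N n τ) (y : ℝ) : Tendsto (fun j => h74z (N j) (kk N y j) / (N j : ℝ))
    atTop (𝓝 0) := by
  have := (h.lz y).mul h.lsqrt
  rw [mul_zero] at this
  apply this.congr
  intro j
  rw [div_mul_div_comm, mul_one, Real.mul_self_sqrt (Nat.cast_nonneg _)]

theorem lz2 (h : H74 N n τ) (y : ℝ) : Tendsto (fun j => h74z (N j) (kk N y j) ^ 2 / (N j : ℝ))
    atTop (𝓝 (y ^ 2)) := by
  apply ((h.lz y).pow 2).congr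
  intro j
  rw [div_pow, Real.sq_sqrt (Nat.cast_nonneg _)]

theorem lsin (h : H74 N n τ) (y : ℝ) : Tendsto (fun j => (N j : ℝ) *
    Real.sin (Real.pi * h74z (N j) (kk N y j) / N j) ^ 2) atTop (𝓝 (Real.pi ^ 2 * y ^ 2)) := by
  have h1 : Tendsto (fun j => Real.pi * h74z (N j) (kk N y j) / N j) atTop (𝓝 0) := by
    have := (h.lzN y).const_mul Real.pi
    rw [mul_zero] at this
    apply this.congr
    intro j
    ring
  have h2 : Tendsto (fun j => Real.sinc (Real.pi * h74z (N j) (kk N y j) / N j)) atTop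
      (𝓝 1) := by
    have := Real.continuous_sinc.tendsto 0
    rw [Real.sinc_zero] at this
    exact this.comp h1
  have h3 := (((h.lz2 y).const_mul (Real.pi ^ 2)).mul (h2.pow 2))
  rw [one_pow, mul_one] at h3
  apply h3.congr'
  filter_upwards [h.epos] with j hj
  have hN : (N j : ℝ) ≠ 0 := by
    have : N j ≠ 0 := by omega
    exact_mod_cast this
  have key : ∀ x : ℝ, Real.sin x = x * Real.sinc x := by
    intro x
    by_cases hx : x = 0
    · simp [hx]
    · rw [Real.sinc_of_ne_zero hx]; field_simp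
  rw [key (Real.pi * h74z (N j) (kk N y j) / N j)]
  field_simp

theorem ek (h : H74 N n τ) (y : ℝ) : ∀ᶠ j in atTop,
    n j ≤ kk N y j ∧ kk N y j + n j ≤ N j - 1 := by
  have l1 := h.lim_lt
  have h1 : Tendsto (fun j => h74z (N j) (kk N y j) / (N j : ℝ) + 1 / 2 - 1 / 2 * (1 / (N j : ℝ)) -
      (n j : ℝ) / N j) atTop (𝓝 (0 + 1 / 2 - 1 / 2 * 0 - τ / Real.pi)) :=
    (((h.lzN y).add_const _).sub (h.linv.const_mul _)).sub h.lnN
  have h2 : Tendsto (fun j => -(h74z (N j) (kk N y j) / (N j : ℝ)) + 1 / 2 -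
      1 / 2 * (1 / (N j : ℝ)) - (n j : ℝ) / N j) atTop
      (𝓝 (-0 + 1 / 2 - 1 / 2 * 0 - τ / Real.pi)) :=
    (((h.lzN y).neg.add_const _).sub (h.linv.const_mul _)).sub h.lnN
  filter_upwards [h1.eventually_const_lt (show (0 : ℝ) < 0 + 1 / 2 - 1 / 2 * 0 - τ / Real.pi by
      linarith), h2.eventually_const_lt (show (0 : ℝ) < -0 + 1 / 2 - 1 / 2 * 0 - τ / Real.pi by
      linarith), h.epos] with j g1 g2 g3
  have h3 : (0 : ℝ) < N j := by
    have : 0 < N j := by omega
    exact_mod_cast this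
  have e1 : h74z (N j) (kk N y j) / (N j : ℝ) + 1 / 2 - 1 / 2 * (1 / (N j : ℝ)) -
      (n j : ℝ) / N j = ((kk N y j : ℝ) - n j) / N j := by
    unfold h74z
    field_simp
    ring
  have e2 : -(h74z (N j) (kk N y j) / (N j : ℝ)) + 1 / 2 -
      1 / 2 * (1 / (N j : ℝ)) - (n j : ℝ) / N j = ((N j : ℝ) - 1 - kk N y j - n j) / N j := by
    unfold h74z
    field_simp
    ring
  rw [e1] at g1
  rw [e2] at g2
  have f1 : (0 : ℝ) < (kk N y j : ℝ) - n j := by
    by_contra hc
    have := div_nonpos_of_nonpos_of_nonneg (not_lt.mp hc) h3.le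
    linarith
  have f2 : (0 : ℝ) < (N j : ℝ) - 1 - kk N y j - n j := by
    by_contra hc
    have := div_nonpos_of_nonpos_of_nonneg (not_lt.mp hc) h3.le
    linarith
  constructor
  · have : (n j : ℝ) < kk N y j := by linarith
    exact_mod_cast this.le
  · have : ((kk N y j + n j + 1 : ℕ) : ℝ) < N j := by push_cast; linarith
    have := Nat.cast_lt.mp this
    omega

theorem lh (h : H74 N n τ) (y : ℝ) : Tendsto (fun j => h74h (N j) (n j) (kk N y j)) atTop
    (𝓝 (Real.exp (-(Real.pi * y ^ 2 * Real.tan τ)))) := by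
  have hpi := Real.pi_pos
  set S : ℕ → ℝ := fun j => Real.sin (Real.pi * h74z (N j) (kk N y j) / N j) ^ 2 *
      ∑ i ∈ range (n j), 1 / Real.cos (Real.pi * (i + 1 / 2) / N j) ^ 2 with hS
  set D : ℕ → ℝ := fun j => Real.sin (Real.pi * h74z (N j) (kk N y j) / N j) ^ 2 /
      Real.cos (Real.pi * n j / N j) ^ 2 with hD
  have lS : Tendsto S atTop (𝓝 (Real.pi * y ^ 2 * Real.tan τ)) := by
    have h1 := ((h.lsin y).mul h.lsum).const_mul (1 / Real.pi)
    have e : 1 / Real.pi * (Real.pi ^ 2 * y ^ 2 * Real.tan τ) =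
        Real.pi * y ^ 2 * Real.tan τ := by field_simp
    rw [e] at h1
    apply h1.congr'
    filter_upwards [h.epos] with j hj
    have hN : (N j : ℝ) ≠ 0 := by
      have : N j ≠ 0 := by omega
      exact_mod_cast this
    rw [hS]
    simp only
    generalize Real.sin (Real.pi * h74z (N j) (kk N y j) / N j) ^ 2 = s
    generalize ∑ i ∈ range (n j), 1 / Real.cos (Real.pi * (i + 1 / 2) / N j) ^ 2 = t
    field_simp
  have lD : Tendsto D atTop (𝓝 0) := by
    have h1 : Tendsto (fun j => Real.sin (Real.pi * h74z (N j) (kk N y j) / N j) ^ 2) atTop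
        (𝓝 0) := by
      have := (h.lsin y).mul h.linv
      rw [mul_zero] at this
      apply this.congr'
      filter_upwards [h.epos] with j hj
      have hN : (N j : ℝ) ≠ 0 := by
        have : N j ≠ 0 := by omega
        exact_mod_cast this
      generalize Real.sin (Real.pi * h74z (N j) (kk N y j) / N j) ^ 2 = s
      field_simp
    have h2 : Tendsto (fun j => Real.cos (Real.pi * n j / N j) ^ 2) atTop
        (𝓝 (Real.cos τ ^ 2)) := ((Real.continuous_cos.tendsto τ).comp h.lnN').pow 2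
    have h3 := h1.div h2 (pow_pos h.cpos 2).ne'
    rw [zero_div] at h3
    exact h3
  have l1 : Tendsto (fun j => Real.exp (-(S j) / (1 - D j))) atTop
      (𝓝 (Real.exp (-(Real.pi * y ^ 2 * Real.tan τ)))) := by
    have := (lS.neg).div (lD.const_sub 1) (by norm_num)
    rw [sub_zero, div_one] at this
    exact (Real.continuous_exp.tendsto _).comp this
  have l2 : Tendsto (fun j => Real.exp (-(S j))) atTop
      (𝓝 (Real.exp (-(Real.pi * y ^ 2 * Real.tan τ)))) :=
    (Real.continuous_exp.tendsto _).comp lS.neg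
  have l3 : ∀ᶠ j in atTop, D j < 1 := lD.eventually_lt_const one_pos
  apply tendsto_of_tendsto_of_tendsto_of_le_of_le' l1 l2
  · filter_upwards [h.ek y, h.enN, l3] with j hj hj1 hj3
    apply h74_h_ge_exp (by omega) _ hj hj3
    intro i hi
    rw [hD]
    simp only
    have hN : (0 : ℝ) < N j := by
      have : 0 < N j := by omega
      exact_mod_cast this
    have hi' : (i : ℝ) + 1 ≤ n j := by exact_mod_cast hi
    have hj1' : 2 * (n j : ℝ) + 1 < N j := by exact_mod_cast hj1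
    have c1 : 0 < Real.cos (Real.pi * n j / N j) := by
      apply Real.cos_pos_of_mem_Ioo
      constructor
      · have : 0 ≤ Real.pi * (n j : ℝ) / N j := by positivity
        linarith
      · rw [div_lt_iff₀ hN]
        nlinarith
    have c2 : Real.cos (Real.pi * n j / N j) ≤ Real.cos (Real.pi * (i + 1 / 2) / N j) := by
      apply Real.cos_le_cos_of_nonneg_of_le_pi
      · positivity
      · rw [div_le_iff₀ hN]
        nlinarith
      · apply div_le_div_of_nonneg_right _ hN.le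
        nlinarith
    apply div_le_div_of_nonneg_left (sq_nonneg _) (by positivity)
    exact pow_le_pow_left₀ c1.le c2 2
  · filter_upwards [h.ek y, h.enN] with j hj hj1
    exact h74_h_le_exp (by omega) _ hj

theorem lthx (h : H74 N n τ) (a : ℤ) (y : ℝ) : Tendsto (fun j => thx (N j) a (kk N y j)) atTop
    (𝓝 (Complex.exp (Real.pi * Complex.I * a * (y : ℂ) ^ 2))) := by
  have h1 : Tendsto (fun j => (((h74z (N j) (kk N y j) ^ 2 / (N j : ℝ) : ℝ)) : ℂ)) atTop
      (𝓝 ((y ^ 2 : ℝ) : ℂ)) := (Complex.continuous_ofReal.tendsto _).comp (h.lz2 y)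
  have h2 := (Complex.continuous_exp.tendsto _).comp (h1.const_mul (Real.pi * Complex.I * a))
  rw [Complex.ofReal_pow] at h2
  apply h2.congr
  intro j
  simp only [Function.comp]
  unfold thx h74z
  congr 1
  push_cast
  ring

theorem norm_thx (M : ℕ) (a : ℤ) (k : ℕ) : ‖thx M a k‖ = 1 := by
  unfold thx
  have : Real.pi * Complex.I * (a * ((k : ℂ) - (M - 1) / 2) ^ 2 / M) =
      ((Real.pi * (a * ((k : ℝ) - (M - 1) / 2) ^ 2 / M) : ℝ) : ℂ) * Complex.I := by
    push_cast; ring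
  rw [this, Complex.norm_exp_ofReal_mul_I]

/-- the summand -/
noncomputable def ff (M m : ℕ) (a : ℤ) (k : ℕ) : ℂ := thx M a k * (h74h M m k : ℂ)

theorem ff_zero {M m : ℕ} (hm : 1 ≤ m) (a : ℤ) : ff M m a 0 = 0 := by
  unfold ff h74h
  rw [if_neg (by omega)]
  simp

theorem ff_large {M m : ℕ} (hm : 1 ≤ m) (a : ℤ) {k : ℕ} (hk : M ≤ k) : ff M m a k = 0 := by
  unfold ff h74h
  rw [if_neg (by omega)]
  simp

theorem ff_norm {M m : ℕ} (h : 2 * m < M) (a : ℤ) (k : ℕ) : ‖ff M m a k‖ = h74h M m k := by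
  unfold ff
  rw [norm_mul, norm_thx, one_mul, Complex.norm_real, Real.norm_of_nonneg (h74_h_nonneg h k)]

theorem lff (h : H74 N n τ) (a : ℤ) (y : ℝ) : Tendsto (fun j => ff (N j) (n j) a (kk N y j)) atTop
    (𝓝 (Complex.exp (-(Real.pi * (Real.tan τ - Complex.I * a)) * (y : ℂ) ^ 2))) := by
  have h1 := (h.lthx a y).mul ((Complex.continuous_ofReal.tendsto _).comp (h.lh y))
  have e : Complex.exp (Real.pi * Complex.I * a * (y : ℂ) ^ 2) *
      ((Real.exp (-(Real.pi * y ^ 2 * Real.tan τ)) : ℝ) : ℂ) =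
      Complex.exp (-(Real.pi * (Real.tan τ - Complex.I * a)) * (y : ℂ) ^ 2) := by
    rw [Complex.ofReal_exp, ← Complex.exp_add]
    congr 1
    push_cast
    ring
  rw [e] at h1
  exact h1

theorem bound {M m : ℕ} {c y : ℝ} (h1 : 2 * m < M) (h2 : 1 ≤ m) (hc : 0 < c)
    (h3 : c * M ≤ m) (a : ℤ) :
    ‖ff M m a ⌊(M : ℝ) / 2 + Real.sqrt M * y⌋₊‖ ≤ Real.exp c * Real.exp (-(2 * c) * y ^ 2) := by
  rw [ff_norm h1]
  have hpi := Real.pi_pos
  have hM : (0 : ℝ) < M := by
    have : 0 < M := by omega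
    exact_mod_cast this
  have hM1 : (1 : ℝ) ≤ M := by
    have : 1 ≤ M := by omega
    exact_mod_cast this
  set k := ⌊(M : ℝ) / 2 + Real.sqrt M * y⌋₊ with hk
  by_cases hk2 : m ≤ k ∧ k + m ≤ M - 1
  swap
  · unfold h74h
    rw [if_neg hk2]
    positivity
  have hx : 0 ≤ (M : ℝ) / 2 + Real.sqrt M * y := by
    by_contra hneg
    have : k = 0 := by rw [hk]; exact Nat.floor_of_nonpos (not_le.mp hneg).le
    omega
  have hz := near hx
  rw [← hk] at hz
  refine (h74_h_le_exp h1 k hk2).trans ?_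
  rw [← Real.exp_add]
  apply Real.exp_le_exp.mpr
  have s1 : (m : ℝ) ≤ ∑ i ∈ range m, 1 / Real.cos (Real.pi * (i + 1 / 2) / M) ^ 2 := by
    have : (m : ℝ) = ∑ i ∈ range m, (1 : ℝ) := by simp
    nth_rewrite 1 [this]
    apply sum_le_sum
    intro i hi
    rw [mem_range] at hi
    have c := h74_cos_pos h1 hi
    rw [le_div_iff₀ (by positivity), one_mul]
    have := Real.cos_le_one (Real.pi * (i + 1 / 2) / M)
    nlinarith
  have s2 : 4 * h74z M k ^ 2 / M ^ 2 ≤ Real.sin (Real.pi * h74z M k / M) ^ 2 := by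
    have hb : |Real.pi * h74z M k / M| ≤ Real.pi / 2 := by
      rw [abs_div, abs_mul, abs_of_pos hpi, abs_of_pos hM, div_le_iff₀ hM]
      have : |h74z M k| ≤ M / 2 := by
        have g1 : (m : ℝ) ≤ k := by exact_mod_cast hk2.1
        have g2 : (k : ℝ) + m + 1 ≤ M := by
          have : k + m + 1 ≤ M := by omega
          exact_mod_cast this
        have g3 : (0 : ℝ) ≤ m := Nat.cast_nonneg _
        unfold h74z
        rw [abs_le]
        constructor <;> linarith
      nlinarith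
    have g1 := Real.mul_abs_le_abs_sin hb
    have g2 : 0 ≤ 2 / Real.pi * |Real.pi * h74z M k / M| := by positivity
    have g3 := pow_le_pow_left₀ g2 g1 2
    rw [sq_abs] at g3
    refine le_trans (le_of_eq ?_) g3
    rw [mul_pow, sq_abs]
    field_simp
    ring
  have s3 : y ^ 2 / 2 - 1 / 4 ≤ h74z M k ^ 2 / M := by
    rw [le_div_iff₀ hM]
    have g1 : (Real.sqrt M * y) ^ 2 = M * y ^ 2 := by
      rw [mul_pow, Real.sq_sqrt hM.le]
    have g2 := sq_abs (h74z M k - Real.sqrt M * y)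
    have g3 : |h74z M k - Real.sqrt M * y| ^ 2 ≤ (1 / 2) ^ 2 :=
      pow_le_pow_left₀ (abs_nonneg _) hz 2
    nlinarith [sq_nonneg (2 * h74z M k - Real.sqrt M * y)]
  have s4 : 4 * c * (h74z M k ^ 2 / M) ≤ Real.sin (Real.pi * h74z M k / M) ^ 2 *
      ∑ i ∈ range m, 1 / Real.cos (Real.pi * (i + 1 / 2) / M) ^ 2 := by
    have g1 : 4 * c * (h74z M k ^ 2 / M) = 4 * h74z M k ^ 2 / M ^ 2 * (c * M) := by
      field_simp
    rw [g1]
    apply mul_le_mul s2 (h3.trans s1) (by positivity) (sq_nonneg _)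
  nlinarith [s3, s4, hc]

end H74

end Pool.Agent.Helper9.FA
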