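import Pool.Agent.Helper74.FA.GAUSS

/-! # GAUSSW: the phases with an extra weight -/

namespace Pool.Agent.Helper9.FA

open Finset Filter Topology MeasureTheory
open Pool.Agent.Helper9.Kashaev
open Pool.Agent.Helper9 (TB.sf TB.sb TB.sf_succ TB.sf_pos)

/-- the extra weight -/
noncomputable def betaw (N k : ℕ) : ℝ :=
  ((N : ℝ) - 1 - 2 * k) * Real.sin (Real.pi * (2 * k + 1) / N)

/-- `GG` with the extra weight -/
noncomputable def GGb (N : ℕ) (a : ℤ) (n : ℕ) : ℂ :=
  ∑ k ∈ range N, thx N a k * ((betaw N k * (bn N k n * bn N (N - 1 - k) n) : ℝ) : ℂ)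

/-- `G0` with the extra weight -/
noncomputable def G0b (N n : ℕ) : ℝ :=
  ∑ k ∈ range N, betaw N k * (bn N k n * bn N (N - 1 - k) n)

theorem betaw_eq {N : ℕ} (hN : 0 < N) (k : ℕ) :
    betaw N k = 2 * h74z N k * Real.sin (2 * (Real.pi * h74z N k / N)) := by
  have hN' : (N : ℝ) ≠ 0 := by positivity
  unfold betaw h74z
  have e : Real.pi * (2 * (k : ℝ) + 1) / N =
      2 * (Real.pi * ((k : ℝ) - (N - 1) / 2) / N) + Real.pi := by
    field_simp; ring
  rw [e, Real.sin_add_pi]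
  ring

theorem betaw_nonneg {N k : ℕ} (hk : k < N) : 0 ≤ betaw N k := by
  have hpi := Real.pi_pos
  have hN : (0 : ℝ) < N := by
    have : 0 < N := by omega
    exact_mod_cast this
  unfold betaw
  by_cases h : 2 * k + 1 ≤ N
  · have h' : 2 * (k : ℝ) + 1 ≤ N := by exact_mod_cast h
    apply mul_nonneg (by linarith)
    apply Real.sin_nonneg_of_nonneg_of_le_pi (by positivity)
    rw [div_le_iff₀ hN]
    nlinarith
  · have h' : (N : ℝ) ≤ 2 * (k : ℝ) + 1 := by
      have : N ≤ 2 * k + 1 := by omega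
      exact_mod_cast this
    have h2 : 2 * (k : ℝ) + 1 ≤ 2 * N := by
      have : 2 * k + 1 ≤ 2 * N := by omega
      exact_mod_cast this
    have h3 : (N : ℝ) - 1 - 2 * k ≤ 0 := by linarith
    have h4 : Real.sin (Real.pi * (2 * k + 1) / N) ≤ 0 := by
      have e : Real.pi * (2 * (k : ℝ) + 1) / N =
          (Real.pi * (2 * (k : ℝ) + 1) / N - Real.pi) + Real.pi := by ring
      rw [e, Real.sin_add_pi]
      have : 0 ≤ Real.sin (Real.pi * (2 * (k : ℝ) + 1) / N - Real.pi) := by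
        apply Real.sin_nonneg_of_nonneg_of_le_pi
        · rw [sub_nonneg, le_div_iff₀ hN]
          nlinarith
        · rw [sub_le_iff_le_add, div_le_iff₀ hN]
          nlinarith
      linarith
    exact mul_nonneg_of_nonpos_of_nonpos h3 h4

theorem betaw_le {N k : ℕ} (hk : k < N) : betaw N k ≤ N := by
  unfold betaw
  refine (le_abs_self _).trans ?_
  rw [abs_mul]
  have h1 : |(N : ℝ) - 1 - 2 * k| ≤ N := by
    have : (k : ℝ) + 1 ≤ N := by exact_mod_cast hk
    have h0 : (0 : ℝ) ≤ k := Nat.cast_nonneg _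
    rw [abs_le]
    constructor <;> linarith
  have h2 := Real.abs_sin_le_one (Real.pi * (2 * (k : ℝ) + 1) / N)
  calc _ ≤ (N : ℝ) * 1 := mul_le_mul h1 h2 (abs_nonneg _) (Nat.cast_nonneg _)
    _ = N := mul_one _

theorem betaw_abs_le {N : ℕ} (hN : 0 < N) (k : ℕ) :
    |betaw N k| ≤ 4 * Real.pi * (h74z N k ^ 2 / N) := by
  have hpi := Real.pi_pos
  have hN' : (0 : ℝ) < N := by exact_mod_cast hN
  rw [betaw_eq hN, abs_mul]
  have h1 : |Real.sin (2 * (Real.pi * h74z N k / N))| ≤ |2 * (Real.pi * h74z N k / N)| :=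
    Real.abs_sin_le_abs
  refine (mul_le_mul_of_nonneg_left h1 (abs_nonneg _)).trans (le_of_eq ?_)
  rw [← abs_mul]
  have e : 2 * h74z N k * (2 * (Real.pi * h74z N k / N)) = 4 * Real.pi * (h74z N k ^ 2 / N) := by
    ring
  rw [e, abs_of_nonneg (by positivity)]

theorem w_nonneg {N : ℕ} (n : ℕ) {k : ℕ} (hk : k < N) : 0 ≤ bn N k n * bn N (N - 1 - k) n := by
  have pos : ∀ m : ℕ, m < N → 0 < TB.sf N m := fun m hm => TB.sf_pos (by exact_mod_cast hm)
  have bnn : ∀ m : ℕ, m < N → 0 ≤ bn N m n := by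
    intro m hm
    unfold bn
    split_ifs with h
    · have := pos m hm
      have := pos n (by omega)
      have := pos (m - n) (by omega)
      positivity
    · exact le_rfl
  exact mul_nonneg (bnn k hk) (bnn _ (by omega))

theorem G0b_nonneg (N n : ℕ) : 0 ≤ G0b N n := by
  unfold G0b
  apply sum_nonneg
  intro k hk
  rw [mem_range] at hk
  exact mul_nonneg (betaw_nonneg hk) (w_nonneg n hk)

theorem GGb_le (N : ℕ) (a : ℤ) (n : ℕ) : ‖GGb N a n‖ ≤ G0b N n := by
  unfold GGb G0b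
  refine (norm_sum_le _ _).trans (sum_le_sum fun k hk => ?_)
  rw [mem_range] at hk
  rw [norm_mul, H74.norm_thx, one_mul, Complex.norm_real,
    Real.norm_of_nonneg (mul_nonneg (betaw_nonneg hk) (w_nonneg n hk))]

theorem G0b_le (N n : ℕ) : G0b N n ≤ N * G0 N n := by
  unfold G0b G0
  rw [mul_sum]
  apply sum_le_sum
  intro k hk
  rw [mem_range] at hk
  exact mul_le_mul_of_nonneg_right (betaw_le hk) (w_nonneg n hk)

/-! ### the integral -/

theorem h74_integrable_sq {b : ℂ} (hb : 0 < b.re) :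
    Integrable fun x : ℝ => (x : ℂ) ^ 2 * Complex.exp (-b * (x : ℂ) ^ 2) := by
  have h1 := integrable_rpow_mul_exp_neg_mul_sq hb (s := 2) (by norm_num)
  have h2 : Integrable fun x : ℝ => x ^ 2 * Real.exp (-b.re * x ^ 2) := by
    apply h1.congr
    apply Eventually.of_forall
    intro x
    simp
  apply h2.mono (by fun_prop)
  apply Eventually.of_forall
  intro x
  rw [norm_mul, norm_cexp_neg_mul_sq, norm_pow, Complex.norm_real, norm_mul,
    Real.norm_of_nonneg (Real.exp_pos _).le, norm_pow]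

theorem h74_integral_sq {b : ℂ} (hb : 0 < b.re) :
    2 * b * ∫ x : ℝ, (x : ℂ) ^ 2 * Complex.exp (-b * (x : ℂ) ^ 2) =
      ∫ x : ℝ, Complex.exp (-b * (x : ℂ) ^ 2) := by
  have h1 := integrable_cexp_neg_mul_sq hb
  have h2 := h74_integrable_sq hb
  have h3 := integrable_mul_cexp_neg_mul_sq hb
  have hd : ∀ x : ℝ, HasDerivAt (fun x : ℝ => (x : ℂ) * Complex.exp (-b * (x : ℂ) ^ 2))
      (Complex.exp (-b * (x : ℂ) ^ 2) -
        2 * b * ((x : ℂ) ^ 2 * Complex.exp (-b * (x : ℂ) ^ 2))) x := by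
    intro x
    have g1 : HasDerivAt (fun x : ℝ => (x : ℂ)) 1 x := Complex.ofRealCLM.hasDerivAt
    have g2 : HasDerivAt (fun x : ℝ => (x : ℂ) ^ 2) (2 * (x : ℂ)) x := by
      have := g1.fun_pow 2
      exact this.congr_deriv (by simp)
    have g3 := (g2.const_mul (-b)).cexp
    have g4 := g1.fun_mul g3
    exact g4.congr_deriv (by ring)
  have h4 := integral_eq_zero_of_hasDerivAt_of_integrable hd
    (h1.sub (h2.const_mul (2 * b))) h3
  rw [integral_sub h1 (h2.const_mul (2 * b)), integral_const_mul, sub_eq_zero] at h4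
  exact h4.symm

/-! ### the limit -/

namespace H74

variable {N n : ℕ → ℕ} {τ : ℝ}

theorem lbeta (h : H74 N n τ) (y : ℝ) : Tendsto (fun j => betaw (N j) (kk N y j)) atTop
    (𝓝 (4 * Real.pi * y ^ 2)) := by
  have h1 : Tendsto (fun j => 2 * (Real.pi * h74z (N j) (kk N y j) / N j)) atTop (𝓝 0) := by
    have := (h.lzN y).const_mul (2 * Real.pi)
    rw [mul_zero] at this
    apply this.congr
    intro j
    ring
  have h2 : Tendsto (fun j => Real.sinc (2 * (Real.pi * h74z (N j) (kk N y j) / N j))) atTop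
      (𝓝 1) := by
    have := Real.continuous_sinc.tendsto 0
    rw [Real.sinc_zero] at this
    exact this.comp h1
  have h3 := (((h.lz2 y).const_mul (4 * Real.pi)).mul h2)
  rw [mul_one] at h3
  apply h3.congr'
  filter_upwards [h.epos] with j hj
  have hN : (N j : ℝ) ≠ 0 := by
    have : N j ≠ 0 := by omega
    exact_mod_cast this
  have key : ∀ x : ℝ, Real.sin x = x * Real.sinc x := by
    intro x
    by_cases hx : x = 0
    · simp [hx]
    · rw [Real.sinc_of_ne_zero hx]; field_simp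
  rw [betaw_eq (by omega), key (2 * (Real.pi * h74z (N j) (kk N y j) / N j))]
  ring

/-- the summand -/
noncomputable def fb (M m : ℕ) (a : ℤ) (k : ℕ) : ℂ := (betaw M k : ℂ) * ff M m a k

theorem lfb (h : H74 N n τ) (a : ℤ) (y : ℝ) : Tendsto (fun j => fb (N j) (n j) a (kk N y j)) atTop
    (𝓝 (4 * Real.pi * ((y : ℂ) ^ 2 *
      Complex.exp (-(Real.pi * (Real.tan τ - Complex.I * a)) * (y : ℂ) ^ 2)))) := by
  have h1 := ((Complex.continuous_ofReal.tendsto _).comp (h.lbeta y)).mul (h.lff a y)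
  have e : ((4 * Real.pi * y ^ 2 : ℝ) : ℂ) *
      Complex.exp (-(Real.pi * (Real.tan τ - Complex.I * a)) * (y : ℂ) ^ 2) =
      4 * Real.pi * ((y : ℂ) ^ 2 *
      Complex.exp (-(Real.pi * (Real.tan τ - Complex.I * a)) * (y : ℂ) ^ 2)) := by
    push_cast; ring
  rw [e] at h1
  exact h1

theorem boundb {M m : ℕ} {c y : ℝ} (h1 : 2 * m < M) (h2 : 1 ≤ m) (hc : 0 < c)
    (h3 : c * M ≤ m) (a : ℤ) :
    ‖fb M m a ⌊(M : ℝ) / 2 + Real.sqrt M * y⌋₊‖ ≤
      4 * Real.pi * (2 * y ^ 2 + 1 / 2) * (Real.exp c * Real.exp (-(2 * c) * y ^ 2)) := by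
  have hpi := Real.pi_pos
  have hM : (0 : ℝ) < M := by
    have : 0 < M := by omega
    exact_mod_cast this
  have hM1 : (1 : ℝ) ≤ M := by
    have : 1 ≤ M := by omega
    exact_mod_cast this
  by_cases hx : 0 ≤ (M : ℝ) / 2 + Real.sqrt M * y
  · have hz := near hx
    have hb := bound (y := y) h1 h2 hc h3 a
    unfold fb
    rw [norm_mul, Complex.norm_real, Real.norm_eq_abs]
    apply mul_le_mul _ hb (norm_nonneg _) (by positivity)
    refine (betaw_abs_le (by omega) _).trans ?_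
    apply mul_le_mul_of_nonneg_left _ (by positivity)
    rw [div_le_iff₀ hM]
    set z := h74z M ⌊(M : ℝ) / 2 + Real.sqrt M * y⌋₊
    have g1 : (Real.sqrt M * y) ^ 2 = M * y ^ 2 := by
      rw [mul_pow, Real.sq_sqrt hM.le]
    have g2 := sq_abs (z - Real.sqrt M * y)
    have g3 : |z - Real.sqrt M * y| ^ 2 ≤ (1 / 2) ^ 2 :=
      pow_le_pow_left₀ (abs_nonneg _) hz 2
    nlinarith [sq_nonneg (z - 2 * (Real.sqrt M * y))]
  · have : ⌊(M : ℝ) / 2 + Real.sqrt M * y⌋₊ = 0 := Nat.floor_of_nonpos (not_le.mp hx).le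
    unfold fb
    rw [this, ff_zero h2, mul_zero, norm_zero]
    positivity

end H74

/-- the value of the limit -/
noncomputable def h74Lb (a : ℤ) (τ : ℝ) : ℂ := 2 / (Real.tan τ - Complex.I * a) * h74L a τ

theorem h74_limb {N n : ℕ → ℕ} {τ : ℝ} (h : H74 N n τ) (a : ℤ) :
    Tendsto (fun j => ((1 / Real.sqrt (N j) : ℝ) : ℂ) *
      ∑ k ∈ range (N j), thx (N j) a k * ((betaw (N j) k * h74h (N j) (n j) k : ℝ) : ℂ)) atTop
      (𝓝 (h74Lb a τ)) := by
  have hpi := Real.pi_pos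
  have ht := h74_tan_pos ⟨h.h0, h.h1⟩
  have hc : 0 < τ / (2 * Real.pi) := div_pos h.h0 (by positivity)
  have hre : 0 < ((Real.pi : ℂ) * (Real.tan τ - Complex.I * a)).re := by
    simp
    positivity
  have h1 : Tendsto (fun j => ∫ y : ℝ, H74.fb (N j) (n j) a
      ⌊(N j : ℝ) / 2 + Real.sqrt (N j) * y⌋₊) atTop
      (𝓝 (∫ y : ℝ, 4 * Real.pi * ((y : ℂ) ^ 2 *
        Complex.exp (-(Real.pi * (Real.tan τ - Complex.I * a)) * (y : ℂ) ^ 2)))) := by
    apply tendsto_integral_filter_of_dominated_convergence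
      (fun y => 4 * Real.pi * (2 * y ^ 2 + 1 / 2) *
        (Real.exp (τ / (2 * Real.pi)) * Real.exp (-(2 * (τ / (2 * Real.pi))) * y ^ 2)))
    · apply Eventually.of_forall
      intro j
      apply Measurable.aestronglyMeasurable
      apply (measurable_from_top (f := H74.fb (N j) (n j) a)).comp
      apply Nat.measurable_floor.comp
      fun_prop
    · filter_upwards [h.enN, h.en, h.ec] with j g1 g2 g3
      apply Eventually.of_forall
      intro y
      exact H74.boundb (by omega) g2 hc g3 a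
    · have i1 := integrable_exp_neg_mul_sq (b := 2 * (τ / (2 * Real.pi))) (by positivity)
      have i2 := integrable_rpow_mul_exp_neg_mul_sq (b := 2 * (τ / (2 * Real.pi)))
        (by positivity) (s := 2) (by norm_num)
      have i3 := (i1.const_mul (2 * Real.pi * Real.exp (τ / (2 * Real.pi)))).add
        (i2.const_mul (8 * Real.pi * Real.exp (τ / (2 * Real.pi))))
      apply i3.congr
      apply Eventually.of_forall
      intro y
      simp only [Pi.add_apply, Real.rpow_two]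
      ring
    · apply Eventually.of_forall
      intro y
      exact h.lfb a y
  have e : ∫ y : ℝ, 4 * Real.pi * ((y : ℂ) ^ 2 *
        Complex.exp (-(Real.pi * (Real.tan τ - Complex.I * a)) * (y : ℂ) ^ 2)) =
      h74Lb a τ := by
    have hpi' : (Real.pi : ℂ) ≠ 0 := by exact_mod_cast hpi.ne'
    have hne := h74_ne (a := a) ⟨h.h0, h.h1⟩
    rw [integral_const_mul]
    have e1 := h74_integral_sq hre
    have e2 : ∫ y : ℝ, Complex.exp (-(Real.pi * (Real.tan τ - Complex.I * a)) * (y : ℂ) ^ 2) =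
        h74L a τ := by
      rw [integral_gaussian_complex hre]
      unfold h74L
      congr 1
      rw [div_mul_eq_div_div, div_self hpi']
    rw [e2] at e1
    unfold h74Lb
    rw [← e1]
    generalize (∫ y : ℝ, (y : ℂ) ^ 2 *
      Complex.exp (-(Real.pi * (Real.tan τ - Complex.I * a)) * (y : ℂ) ^ 2)) = J
    field_simp
    ring
  rw [e] at h1
  apply h1.congr'
  filter_upwards [h.en] with j hj
  rw [h74_integral_scaled (H74.fb (N j) (n j) a) (N j)
    (by unfold H74.fb; rw [H74.ff_zero hj a, mul_zero])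
    (fun k hk => by unfold H74.fb; rw [H74.ff_large hj a hk, mul_zero])]
  congr 1
  apply sum_congr rfl
  intro k _
  unfold H74.fb H74.ff
  push_cast
  ring

theorem h74Lb_ne {a : ℤ} {τ : ℝ} (h : τ ∈ Set.Ioo 0 (Real.pi / 2)) : h74Lb a τ ≠ 0 :=
  mul_ne_zero (div_ne_zero two_ne_zero (h74_ne h)) (h74L_ne h)

theorem h74Lb_cont (a : ℤ) : ContinuousOn (h74Lb a) (Set.Ioo 0 (Real.pi / 2)) := by
  apply ContinuousOn.mul _ (h74L_cont a)
  apply ContinuousOn.div continuousOn_const _ (fun τ hτ => h74_ne hτ)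
  intro τ hτ
  apply ContinuousAt.continuousWithinAt
  have hc : Real.cos τ ≠ 0 :=
    (Real.cos_pos_of_mem_Ioo ⟨by linarith [hτ.1, Real.pi_pos], hτ.2⟩).ne'
  apply ContinuousAt.sub _ continuousAt_const
  exact (Complex.continuous_ofReal.continuousAt).comp (Real.continuousAt_tan.mpr hc)

/-- the uniform statement from the limits -/
theorem h74_core (w : ℕ → ℕ → ℝ) (hw : ∀ N k, k < N → 0 ≤ w N k) (L : ℤ → ℝ → ℂ)
    (hLc : ∀ a, ContinuousOn (L a) (Set.Ioo 0 (Real.pi / 2)))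
    (hLne : ∀ a, ∀ τ ∈ Set.Ioo 0 (Real.pi / 2), L a τ ≠ 0)
    (hlim : ∀ (N n : ℕ → ℕ) (τ : ℝ), H74 N n τ → ∀ a,
      Tendsto (fun j => ((1 / Real.sqrt (N j) : ℝ) : ℂ) *
        ∑ k ∈ range (N j), thx (N j) a k * ((w (N j) k * h74h (N j) (n j) k : ℝ) : ℂ)) atTop
        (𝓝 (L a τ))) (a : ℤ) :
    ∀ α β : ℝ, 0 < α → β < Real.pi / 2 → ∀ ε : ℝ, 0 < ε → ∃ N0 : ℕ, ∀ N : ℕ, N0 ≤ N → ∀ n : ℕ,
      α ≤ Real.pi * n / (N - 1) → Real.pi * n / (N - 1) ≤ β →
      ‖∑ k ∈ range N, thx N a k * ((w N k * (bn N k n * bn N (N - 1 - k) n) : ℝ) : ℂ) -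
        L a (Real.pi * n / (N - 1)) / L 0 (Real.pi * n / (N - 1)) *
        ((∑ k ∈ range N, w N k * (bn N k n * bn N (N - 1 - k) n) : ℝ) : ℂ)‖ ≤
      ε * ∑ k ∈ range N, w N k * (bn N k n * bn N (N - 1 - k) n) := by
  have hcont : ContinuousOn (fun τ => L a τ / L 0 τ) (Set.Ioo 0 (Real.pi / 2)) :=
    (hLc a).div (hLc 0) (hLne 0)
  intro α β hα hβ ε hε
  by_contra hcon
  push Not at hcon
  choose N hN n hn1 hn2 hbad using hcon
  have hcpt : IsCompact (Set.Icc α β) := isCompact_Icc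
  obtain ⟨τ, hτ, φ, hφ, hlim'⟩ := hcpt.tendsto_subseq
    (x := fun j => Real.pi * n j / ((N j : ℝ) - 1)) (fun j => ⟨hn1 j, hn2 j⟩)
  have hτ' : τ ∈ Set.Ioo 0 (Real.pi / 2) := ⟨by linarith [hτ.1], by linarith [hτ.2]⟩
  have hNt : Tendsto N atTop atTop := tendsto_atTop_mono hN tendsto_id
  have H : H74 (fun j => N (φ j)) (fun j => n (φ j)) τ :=
    ⟨hNt.comp hφ.tendsto_atTop, hlim', hτ'.1, hτ'.2⟩
  have l1 := hlim _ _ _ H a
  have l2 := hlim _ _ _ H 0
  have l3 : Tendsto (fun j => L a (Real.pi * n (φ j) / ((N (φ j) : ℝ) - 1)) /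
      L 0 (Real.pi * n (φ j) / ((N (φ j) : ℝ) - 1))) atTop
      (𝓝 (L a τ / L 0 τ)) := by
    have h1 : ContinuousAt (fun τ => L a τ / L 0 τ) τ :=
      hcont.continuousAt (isOpen_Ioo.mem_nhds hτ')
    exact h1.tendsto.comp hlim'
  have l4 := (l1.sub (l3.mul l2)).norm
  have l5 := (l2.norm).const_mul ε
  have hz : L a τ - L a τ / L 0 τ * L 0 τ = 0 := by
    rw [div_mul_cancel₀ _ (hLne 0 τ hτ'), sub_self]
  rw [hz, norm_zero] at l4
  have l6 : ε * ‖L 0 τ‖ ≤ 0 := by
    apply le_of_tendsto_of_tendsto l5 l4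
    filter_upwards [H.enN, H.epos] with j hj hj2
    have hM : (0 : ℝ) < N (φ j) := by
      have : 0 < N (φ j) := by omega
      exact_mod_cast this
    have hs : 0 < Real.sqrt (N (φ j)) := Real.sqrt_pos.mpr hM
    have b := hbad (φ j)
    have hW := h74_W_pos (N := N (φ j)) (n := n (φ j)) (by omega)
    have c1 : ∑ k ∈ range (N (φ j)), thx (N (φ j)) a k *
        ((w (N (φ j)) k * (bn (N (φ j)) k (n (φ j)) *
          bn (N (φ j)) (N (φ j) - 1 - k) (n (φ j))) : ℝ) : ℂ) =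
        (h74W (N (φ j)) (n (φ j)) : ℂ) * ∑ k ∈ range (N (φ j)), thx (N (φ j)) a k *
          ((w (N (φ j)) k * h74h (N (φ j)) (n (φ j)) k : ℝ) : ℂ) := by
      rw [mul_sum]
      apply sum_congr rfl
      intro k hk
      rw [mem_range] at hk
      rw [h74_weight (by omega) hk]
      push_cast
      ring
    have c2 : ∑ k ∈ range (N (φ j)), w (N (φ j)) k * (bn (N (φ j)) k (n (φ j)) *
          bn (N (φ j)) (N (φ j) - 1 - k) (n (φ j))) =
        h74W (N (φ j)) (n (φ j)) * ∑ k ∈ range (N (φ j)),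
          w (N (φ j)) k * h74h (N (φ j)) (n (φ j)) k := by
      rw [mul_sum]
      apply sum_congr rfl
      intro k hk
      rw [mem_range] at hk
      rw [h74_weight (by omega) hk]
      ring
    rw [c1, c2] at b
    have th0 : ∀ k, thx (N (φ j)) 0 k = 1 := by
      intro k; unfold thx; simp
    have e1 : ∑ k ∈ range (N (φ j)), thx (N (φ j)) 0 k *
        ((w (N (φ j)) k * h74h (N (φ j)) (n (φ j)) k : ℝ) : ℂ) =
        ((∑ k ∈ range (N (φ j)), w (N (φ j)) k * h74h (N (φ j)) (n (φ j)) k : ℝ) : ℂ) := by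
      rw [Complex.ofReal_sum]
      apply sum_congr rfl
      intro k _
      rw [th0, one_mul]
    rw [e1]
    have hS : 0 ≤ ∑ k ∈ range (N (φ j)), w (N (φ j)) k * h74h (N (φ j)) (n (φ j)) k :=
      sum_nonneg fun k hk => mul_nonneg (hw _ _ (mem_range.mp hk)) (h74_h_nonneg (by omega) k)
    generalize (∑ k ∈ range (N (φ j)), w (N (φ j)) k * h74h (N (φ j)) (n (φ j)) k) = S at b hS ⊢
    generalize (∑ k ∈ range (N (φ j)), thx (N (φ j)) a k *
      ((w (N (φ j)) k * h74h (N (φ j)) (n (φ j)) k : ℝ) : ℂ)) = G at b ⊢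
    generalize (L a (Real.pi * n (φ j) / ((N (φ j) : ℝ) - 1)) /
      L 0 (Real.pi * n (φ j) / ((N (φ j) : ℝ) - 1))) = R at b ⊢
    generalize h74W (N (φ j)) (n (φ j)) = W at b hW ⊢
    have b1 : (W : ℂ) * G - R * ((W * S : ℝ) : ℂ) = (W : ℂ) * (G - R * S) := by
      push_cast; ring
    rw [b1, norm_mul, Complex.norm_real, Real.norm_of_nonneg hW.le] at b
    have b2 : ε * S < ‖G - R * S‖ := by
      by_contra hc
      have := mul_le_mul_of_nonneg_left (not_lt.mp hc) hW.le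
      linarith
    have b3 : ((1 / Real.sqrt (N (φ j)) : ℝ) : ℂ) * G -
        R * (((1 / Real.sqrt (N (φ j)) : ℝ) : ℂ) * (S : ℂ)) =
        ((1 / Real.sqrt (N (φ j)) : ℝ) : ℂ) * (G - R * S) := by ring
    rw [b3, norm_mul, norm_mul, Complex.norm_real, Complex.norm_real,
      Real.norm_of_nonneg (by positivity), Real.norm_of_nonneg hS]
    have b4 := mul_le_mul_of_nonneg_left b2.le (by positivity : 0 ≤ 1 / Real.sqrt (N (φ j)))
    linarith
  have l7 : 0 < ε * ‖L 0 τ‖ := mul_pos hε (norm_pos_iff.mpr (hLne 0 τ hτ'))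
  linarith

/-- the limit of the ratio -/
theorem GGb_ratio (a : ℤ) : ∃ r : ℝ → ℂ, ContinuousOn r (Set.Ioo 0 (Real.pi / 2)) ∧
    (∀ τ ∈ Set.Ioo 0 (Real.pi / 2), r τ ≠ 0 ∧ ‖r τ‖ ≤ 1) ∧
    ∀ α β : ℝ, 0 < α → β < Real.pi / 2 → ∀ ε : ℝ, 0 < ε → ∃ N0 : ℕ, ∀ N : ℕ, N0 ≤ N → ∀ n : ℕ,
      α ≤ Real.pi * n / (N - 1) → Real.pi * n / (N - 1) ≤ β →
      ‖GGb N a n - r (Real.pi * n / (N - 1)) * (G0b N n : ℝ)‖ ≤ ε * G0b N n := by
  refine ⟨fun τ => h74Lb a τ / h74Lb 0 τ,
    (h74Lb_cont a).div (h74Lb_cont 0) (fun τ hτ => h74Lb_ne hτ), ?_, ?_⟩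
  · intro τ hτ
    refine ⟨div_ne_zero (h74Lb_ne hτ) (h74Lb_ne hτ), ?_⟩
    have h1 : ‖((Real.tan τ : ℂ) - Complex.I * (0 : ℤ))‖ = Real.tan τ := by
      simp only [Int.cast_zero, mul_zero, sub_zero, Complex.norm_real]
      exact Real.norm_of_nonneg (h74_tan_pos hτ).le
    have h2 : ‖((Real.tan τ : ℂ) - Complex.I * (0 : ℤ))‖ ≤ ‖((Real.tan τ : ℂ) - Complex.I * a)‖ := by
      rw [h1]
      refine le_trans (le_of_eq ?_) (Complex.re_le_norm _)
      rw [Complex.sub_re, Complex.ofReal_re]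
      simp
    have p0 : 0 < ‖((Real.tan τ : ℂ) - Complex.I * (0 : ℤ))‖ := norm_pos_iff.mpr (h74_ne hτ)
    have p1 : 0 < ‖((Real.tan τ : ℂ) - Complex.I * a)‖ := norm_pos_iff.mpr (h74_ne hτ)
    rw [norm_div, div_le_one (norm_pos_iff.mpr (h74Lb_ne hτ))]
    unfold h74Lb
    rw [norm_mul, norm_mul, norm_div, norm_div, h74L_norm, h74L_norm]
    apply mul_le_mul
    · exact div_le_div_of_nonneg_left (norm_nonneg _) p0 h2
    · apply Real.rpow_le_rpow (by positivity) _ (by norm_num)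
      exact inv_anti₀ p0 h2
    · positivity
    · positivity
  · exact h74_core betaw (fun N k hk => betaw_nonneg hk) h74Lb h74Lb_cont
      (fun a τ hτ => h74Lb_ne hτ) (fun N n τ h a => h74_limb h a) a

end Pool.Agent.Helper9.FA
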